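import Pool.Agent.Lib.MP_3f9d7d_an.H30.Field

open Set MvPolynomial Filter Topology
open scoped InnerProductSpace

namespace Pool.Agent.Lib.MP_3f9d7d_an.H30

variable {d N : ℕ}

lemma hasDerivAt_coord {γ : ℝ → EuclideanSpace ℝ (Fin d)} {u : EuclideanSpace ℝ (Fin d)} {t : ℝ}
    (hγ : HasDerivAt γ u t) (j : Fin d) : HasDerivAt (fun s => γ s j) (u j) t := by
  have h0 : HasFDerivAt (fun z : EuclideanSpace ℝ (Fin d) => z j)
      (EuclideanSpace.proj (𝕜 := ℝ) j : EuclideanSpace ℝ (Fin d) →L[ℝ] ℝ) (γ t) :=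
    (EuclideanSpace.proj (𝕜 := ℝ) j : EuclideanSpace ℝ (Fin d) →L[ℝ] ℝ).hasFDerivAt
  exact h0.comp_hasDerivAt t hγ

lemma hasDerivAt_inner_left {γ : ℝ → EuclideanSpace ℝ (Fin d)} {u : EuclideanSpace ℝ (Fin d)}
    {t : ℝ} (hγ : HasDerivAt γ u t) (y : EuclideanSpace ℝ (Fin d)) :
    HasDerivAt (fun s => ⟪y, γ s⟫_ℝ) ⟪y, u⟫_ℝ t := by
  have h := (innerSL ℝ y).hasFDerivAt.comp_hasDerivAt t hγ
  exact h

/-- The chain rule for the polynomial ring. -/
theorem hasDerivAt_eval {p : ℝ} {w : Fin N → EuclideanSpace ℝ (Fin d)}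
    {γ : ℝ → EuclideanSpace ℝ (Fin d)} {u : EuclideanSpace ℝ (Fin d)} {t : ℝ}
    (hγ : HasDerivAt γ u t) (hpos : ∀ i, 0 < ⟪w i, γ t⟫_ℝ) (P : PR d N) :
    HasDerivAt (fun s => MvPolynomial.eval (pt p w (γ s)) P)
      (∑ k, u k * MvPolynomial.eval (pt p w (γ t)) (dP p w k P)) t := by
  have hinner : ∀ y : EuclideanSpace ℝ (Fin d), ⟪y, u⟫_ℝ = ∑ k, u k * y k := by
    intro y
    rw [PiLp.inner_apply]
    apply Finset.sum_congr rfl
    intro k _
    simp
  have hgen : ∀ s, HasDerivAt (fun r => MvPolynomial.eval (pt p w (γ r)) (X s))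
      (∑ k, u k * MvPolynomial.eval (pt p w (γ t)) (dP p w k (X s))) t := by
    intro s
    rcases s with j | i | i
    · simp only [eval_X, dP_X]
      refine (hasDerivAt_coord hγ j).congr_deriv ?_
      rw [Finset.sum_eq_single j]
      · simp
      · intro k _ hk
        rw [if_neg (Ne.symm hk), map_zero, mul_zero]
      · intro h
        exact absurd (Finset.mem_univ _) h
    · simp only [eval_X, dP_Y]
      have h1 := (hasDerivAt_inner_left hγ (w i)).rpow_const (p := p) (Or.inl (hpos i).ne')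
      refine h1.congr_deriv ?_
      rw [hinner, Real.rpow_sub_one (hpos i).ne', Finset.sum_mul, Finset.sum_mul]
      apply Finset.sum_congr rfl
      intro k _
      simp only [map_mul, eval_C, eval_X, pt, Sum.elim_inr, Sum.elim_inl]
      ring
    · simp only [eval_X, dP_Z]
      have h1 := (hasDerivAt_inner_left hγ (w i)).inv (hpos i).ne'
      refine h1.congr_deriv ?_
      rw [hinner, neg_div, Finset.sum_div, ← Finset.sum_neg_distrib]
      apply Finset.sum_congr rfl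
      intro k _
      simp only [map_neg, map_mul, map_pow, eval_C, eval_X, pt, Sum.elim_inr]
      ring
  induction P using MvPolynomial.induction_on with
  | C a =>
    simp only [eval_C]
    refine (hasDerivAt_const t a).congr_deriv ?_
    symm
    apply Finset.sum_eq_zero
    intro k _
    rw [← MvPolynomial.algebraMap_eq, Derivation.map_algebraMap, map_zero, mul_zero]
  | add P Q hP hQ =>
    simp only [map_add]
    refine (hP.add hQ).congr_deriv ?_
    rw [← Finset.sum_add_distrib]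
    apply Finset.sum_congr rfl
    intro k _
    ring
  | mul_X P s hP =>
    simp only [map_mul]
    refine (hP.mul (hgen s)).congr_deriv ?_
    rw [Finset.sum_mul, Finset.mul_sum, ← Finset.sum_add_distrib]
    apply Finset.sum_congr rfl
    intro k _
    rw [Derivation.leibniz, map_add, smul_eq_mul, smul_eq_mul, map_mul, map_mul]
    ring

lemma contDiffAt_eval {p : ℝ} {w : Fin N → EuclideanSpace ℝ (Fin d)}
    {z0 : EuclideanSpace ℝ (Fin d)} (hpos : ∀ i, 0 < ⟪w i, z0⟫_ℝ) (P : PR d N) :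
    ContDiffAt ℝ 1 (fun z => MvPolynomial.eval (pt p w z) P) z0 := by
  have hin : ∀ i, ContDiffAt ℝ 1 (fun z : EuclideanSpace ℝ (Fin d) => ⟪w i, z⟫_ℝ) z0 := by
    intro i
    exact (innerSL ℝ (w i)).contDiff.contDiffAt
  have hgen : ∀ s, ContDiffAt ℝ 1 (fun z => MvPolynomial.eval (pt p w z) (X s)) z0 := by
    intro s
    rcases s with j | i | i
    · simp only [eval_X, pt, Sum.elim_inl]
      exact (EuclideanSpace.proj (𝕜 := ℝ) j).contDiff.contDiffAt
    · simp only [eval_X, pt, Sum.elim_inr, Sum.elim_inl]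
      exact (hin i).rpow_const_of_ne (hpos i).ne'
    · simp only [eval_X, pt, Sum.elim_inr]
      exact (hin i).inv (hpos i).ne'
  induction P using MvPolynomial.induction_on with
  | C a =>
    simp only [eval_C]
    exact contDiffAt_const
  | add P Q hP hQ =>
    simp only [map_add]
    exact hP.add hQ
  | mul_X P s hP =>
    simp only [map_mul]
    exact hP.mul (hgen s)

/-- The vector field. -/
noncomputable def vf (p : ℝ) (w : Fin N → EuclideanSpace ℝ (Fin d)) (M : Fin d → PR d N)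
    (z : EuclideanSpace ℝ (Fin d)) : EuclideanSpace ℝ (Fin d) :=
  WithLp.toLp 2 fun k => MvPolynomial.eval (pt p w z) (M k)

/-- The derivation of the vector field. -/
noncomputable def XM (p : ℝ) (w : Fin N → EuclideanSpace ℝ (Fin d)) (M : Fin d → PR d N)
    (P : PR d N) : PR d N := ∑ k, M k * dP p w k P

lemma eval_XM {p : ℝ} {w : Fin N → EuclideanSpace ℝ (Fin d)} {M : Fin d → PR d N}
    (z : EuclideanSpace ℝ (Fin d)) (P : PR d N) :
    MvPolynomial.eval (pt p w z) (XM p w M P) =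
      ∑ k, (vf p w M z) k * MvPolynomial.eval (pt p w z) (dP p w k P) := by
  unfold XM vf
  rw [map_sum]
  apply Finset.sum_congr rfl
  intro k _
  rw [map_mul]

/-- An arc in the zero set of the ideal. -/
structure Arc (p : ℝ) (w : Fin N → EuclideanSpace ℝ (Fin d)) (M : Fin d → PR d N)
    (I : Ideal (PR d N)) (γ : ℝ → EuclideanSpace ℝ (Fin d)) (b : ℝ) : Prop where
  pos : 0 < b
  deriv : ∀ t ∈ Icc 0 b, HasDerivAt γ (vf p w M (γ t)) t
  dom : ∀ t ∈ Icc 0 b, ∀ i, 0 < ⟪w i, γ t⟫_ℝ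
  ne : ∀ t ∈ Icc 0 b, vf p w M (γ t) ≠ 0
  zero : ∀ F ∈ I, ∀ t ∈ Icc 0 b, MvPolynomial.eval (pt p w (γ t)) F = 0

lemma Arc.hasDerivAt {p : ℝ} {w : Fin N → EuclideanSpace ℝ (Fin d)} {M : Fin d → PR d N}
    {I : Ideal (PR d N)} {γ : ℝ → EuclideanSpace ℝ (Fin d)} {b : ℝ} (h : Arc p w M I γ b)
    (P : PR d N) {t : ℝ} (ht : t ∈ Icc 0 b) :
    HasDerivAt (fun s => MvPolynomial.eval (pt p w (γ s)) P)
      (MvPolynomial.eval (pt p w (γ t)) (XM p w M P)) t := by
  rw [eval_XM]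
  exact hasDerivAt_eval (h.deriv t ht) (h.dom t ht) P

lemma Arc.continuousOn {p : ℝ} {w : Fin N → EuclideanSpace ℝ (Fin d)} {M : Fin d → PR d N}
    {I : Ideal (PR d N)} {γ : ℝ → EuclideanSpace ℝ (Fin d)} {b : ℝ} (h : Arc p w M I γ b)
    (P : PR d N) :
    ContinuousOn (fun s => MvPolynomial.eval (pt p w (γ s)) P) (Icc 0 b) :=
  fun _ ht => (h.hasDerivAt P ht).continuousAt.continuousWithinAt

theorem exists_arc {p : ℝ} {w : Fin N → EuclideanSpace ℝ (Fin d)} {M : Fin d → PR d N}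
    {I : Ideal (PR d N)} (hI : ∀ F ∈ I, XM p w M F ∈ I)
    {c0 : EuclideanSpace ℝ (Fin d)} (hc0 : ∀ F ∈ I, MvPolynomial.eval (pt p w c0) F = 0)
    (hdom : ∀ i, 0 < ⟪w i, c0⟫_ℝ) (hne : vf p w M c0 ≠ 0) :
    ∃ (γ : ℝ → EuclideanSpace ℝ (Fin d)) (b : ℝ), γ 0 = c0 ∧ Arc p w M I γ b := by
  classical
  have hvf : ContDiffAt ℝ 1 (vf p w M) c0 := by
    rw [contDiffAt_euclidean]
    intro k
    exact contDiffAt_eval hdom (M k)
  obtain ⟨γ, hγ0, ε, hε, hγ⟩ :=
    hvf.exists_forall_mem_closedBall_exists_eq_forall_mem_Ioo_hasDerivAt₀ 0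
  have hγc : ContinuousAt γ 0 := (hγ 0 ⟨by linarith, by linarith⟩).continuousAt
  have hev1 : ∀ᶠ t in 𝓝 (0 : ℝ), ∀ i, 0 < ⟪w i, γ t⟫_ℝ := by
    rw [eventually_all]
    intro i
    have h1 : ContinuousAt (fun t => ⟪w i, γ t⟫_ℝ) 0 := by fun_prop
    have h2 : 0 < ⟪w i, γ 0⟫_ℝ := by
      rw [hγ0]
      exact hdom i
    exact h1.eventually (lt_mem_nhds h2)
  have hev2 : ∀ᶠ t in 𝓝 (0 : ℝ), vf p w M (γ t) ≠ 0 := by
    have h0 : ContinuousAt (vf p w M) (γ 0) := by
      rw [hγ0]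
      exact hvf.continuousAt
    have h1 : ContinuousAt (fun t => vf p w M (γ t)) 0 := ContinuousAt.comp (f := γ) h0 hγc
    have h2 : vf p w M (γ 0) ≠ 0 := by
      rw [hγ0]
      exact hne
    exact h1.eventually_ne h2
  obtain ⟨δ, hδ, hball⟩ := Metric.eventually_nhds_iff.mp (hev1.and hev2)
  set b : ℝ := min (ε / 2) (δ / 2) with hb
  have hb0 : 0 < b := lt_min (by linarith) (by linarith)
  have hbε : b < ε := (min_le_left _ _).trans_lt (by linarith)
  have hbδ : b < δ := (min_le_right _ _).trans_lt (by linarith)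
  have h1 : ∀ t ∈ Icc 0 b, HasDerivAt γ (vf p w M (γ t)) t := fun t ht =>
    hγ t ⟨by linarith [ht.1], by linarith [ht.2]⟩
  have h2 : ∀ t ∈ Icc 0 b, (∀ i, 0 < ⟪w i, γ t⟫_ℝ) ∧ vf p w M (γ t) ≠ 0 := by
    intro t ht
    apply hball
    rw [Real.dist_eq, sub_zero, abs_of_nonneg ht.1]
    linarith [ht.2]
  have hder : ∀ (P : PR d N), ∀ t ∈ Icc 0 b,
      HasDerivAt (fun s => MvPolynomial.eval (pt p w (γ s)) P)
        (MvPolynomial.eval (pt p w (γ t)) (XM p w M P)) t := by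
    intro P t ht
    rw [eval_XM]
    exact hasDerivAt_eval (h1 t ht) (h2 t ht).1 P
  have hcont : ∀ (P : PR d N), ContinuousOn (fun s => MvPolynomial.eval (pt p w (γ s)) P)
      (Icc 0 b) := fun P t ht => (hder P t ht).continuousAt.continuousWithinAt
  refine ⟨γ, b, hγ0, hb0, h1, fun t ht => (h2 t ht).1, fun t ht => (h2 t ht).2, ?_⟩
  obtain ⟨s, hs⟩ := (isNoetherian_def.mp inferInstance : ∀ J : Ideal (PR d N), J.FG) I
  have hsI : ∀ F ∈ s, F ∈ I := by
    intro F hF
    rw [← hs]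
    exact Submodule.subset_span hF
  have hcoef : ∀ F : s, ∃ a : s → PR d N, XM p w M F = ∑ G : s, a G * G := by
    intro F
    have h3 := hI F (hsI F F.2)
    rw [← hs] at h3
    obtain ⟨a, ha⟩ := Submodule.mem_span_finset'.mp h3
    exact ⟨a, by rw [← ha]; rfl⟩
  choose a ha using hcoef
  -- the bound
  have hbound : ∃ Kc : ℝ, ∀ t ∈ Icc 0 b, ∀ F : s,
      ∑ G : s, |MvPolynomial.eval (pt p w (γ t)) (a F G)| ≤ Kc := by
    have hc : ContinuousOn (fun t => ∑ F : s, ∑ G : s,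
        |MvPolynomial.eval (pt p w (γ t)) (a F G)|) (Icc 0 b) := by
      apply continuousOn_finsetSum
      intro F _
      apply continuousOn_finsetSum
      intro G _
      exact (hcont (a F G)).abs
    obtain ⟨Kc, hKc⟩ := isCompact_Icc.exists_bound_of_continuousOn hc
    refine ⟨Kc, fun t ht F => ?_⟩
    have h3 := hKc t ht
    rw [Real.norm_eq_abs] at h3
    refine le_trans ?_ ((le_abs_self _).trans h3)
    exact Finset.single_le_sum (f := fun F : s => ∑ G : s,
      |MvPolynomial.eval (pt p w (γ t)) (a F G)|)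
      (fun F _ => Finset.sum_nonneg fun G _ => abs_nonneg _) (Finset.mem_univ F)
  obtain ⟨Kc, hKc⟩ := hbound
  set f : ℝ → s → ℝ := fun t F => MvPolynomial.eval (pt p w (γ t)) (F : PR d N) with hf
  set f' : ℝ → s → ℝ := fun t F => MvPolynomial.eval (pt p w (γ t)) (XM p w M F) with hf'
  have hfd : ∀ t ∈ Icc 0 b, HasDerivAt f (f' t) t := by
    intro t ht
    rw [hasDerivAt_pi]
    intro F
    exact hder F t ht
  have hKc0 : ∀ t ∈ Ico 0 b, ‖f' t‖ ≤ |Kc| * ‖f t‖ := by
    intro t ht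
    have ht' : t ∈ Icc 0 b := ⟨ht.1, ht.2.le⟩
    rw [pi_norm_le_iff_of_nonneg (by positivity)]
    intro F
    have e1 : f' t F = ∑ G : s, MvPolynomial.eval (pt p w (γ t)) (a F G) * f t G := by
      rw [hf']
      simp only
      rw [ha F, map_sum]
      apply Finset.sum_congr rfl
      intro G _
      rw [map_mul]
    rw [e1]
    calc ‖∑ G : s, MvPolynomial.eval (pt p w (γ t)) (a F G) * f t G‖ ≤
        ∑ G : s, ‖MvPolynomial.eval (pt p w (γ t)) (a F G) * f t G‖ := norm_sum_le _ _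
      _ ≤ ∑ G : s, |MvPolynomial.eval (pt p w (γ t)) (a F G)| * ‖f t‖ := by
        apply Finset.sum_le_sum
        intro G _
        rw [norm_mul, Real.norm_eq_abs]
        exact mul_le_mul_of_nonneg_left (norm_le_pi_norm (f t) G) (abs_nonneg _)
      _ = (∑ G : s, |MvPolynomial.eval (pt p w (γ t)) (a F G)|) * ‖f t‖ := by
        rw [Finset.sum_mul]
      _ ≤ |Kc| * ‖f t‖ := by
        apply mul_le_mul_of_nonneg_right _ (norm_nonneg _)
        exact (hKc t ht' F).trans (le_abs_self _)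
  have hzero := eq_zero_of_abs_deriv_le_mul_abs_self_of_eq_zero_right (f := f) (f' := f')
    (a := 0) (b := b) (fun t ht => (hfd t ht).continuousAt.continuousWithinAt)
    (fun t ht => (hfd t ⟨ht.1, ht.2.le⟩).hasDerivWithinAt) (by
      funext F
      rw [hf]
      simp only
      rw [hγ0]
      exact hc0 F (hsI F F.2)) hKc0
  intro F hF t ht
  rw [← hs] at hF
  obtain ⟨c, hc⟩ := Submodule.mem_span_finset'.mp hF
  rw [← hc, map_sum]
  apply Finset.sum_eq_zero
  intro G _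
  rw [smul_eq_mul, map_mul]
  have h3 : MvPolynomial.eval (pt p w (γ t)) (G : PR d N) = 0 := congrFun (hzero t ht) G
  rw [h3, mul_zero]

end Pool.Agent.Lib.MP_3f9d7d_an.H30
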