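import Mathlib

open MeasureTheory Metric Set Filter Topology
open scoped InnerProductSpace ENNReal

namespace Pool.Agent.Lib.MP_3f9d7d_an.H30

variable {X : Type*} [MetricSpace X] [CompactSpace X] [SecondCountableTopology X]
  [MeasurableSpace X] [BorelSpace X]

lemma continuous_potential {K : X × X → ℝ} (hK : Continuous K) (μ : Measure X)
    [IsProbabilityMeasure μ] : Continuous fun x => ∫ y, K (x, y) ∂μ := by
  have h := continuous_parametric_integral_of_continuous (μ := μ)
    (f := fun x y => K (x, y)) (by exact hK) (s := univ) isCompact_univ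
  simpa using h

omit [SecondCountableTopology X] in
lemma integrable_cont {f : X → ℝ} (hf : Continuous f) (ν : Measure X) [IsFiniteMeasure ν] :
    Integrable f ν := by
  have := hf.continuousOn (s := univ) |>.integrableOn_compact (μ := ν) isCompact_univ
  simpa using this

lemma integrable_cont_prod {K : X × X → ℝ} (hK : Continuous K) (ν : Measure X)
    [IsFiniteMeasure ν] : Integrable K (ν.prod ν) := by
  obtain ⟨B, hB⟩ := (isCompact_univ (X := X × X)).exists_bound_of_continuousOn hK.continuousOn
  exact Integrable.of_bound hK.measurable.aestronglyMeasurable B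
    (Eventually.of_forall fun z => hB z (mem_univ _))

lemma integral_mix {μ : Measure X} [IsProbabilityMeasure μ] {f : X → ℝ} (hf : Continuous f)
    (x : X) {ε : ℝ} (h0 : 0 ≤ ε) (h1 : ε ≤ 1) :
    ∫ y, f y ∂(ENNReal.ofReal (1 - ε) • μ + ENNReal.ofReal ε • Measure.dirac x) =
      (1 - ε) * ∫ y, f y ∂μ + ε * f x := by
  rw [integral_add_measure, integral_smul_measure, integral_smul_measure, integral_dirac,
    ENNReal.toReal_ofReal (by linarith), ENNReal.toReal_ofReal h0]
  · rfl
  · exact (integrable_cont hf μ).smul_measure ENNReal.ofReal_ne_top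
  · exact (integrable_cont hf _).smul_measure ENNReal.ofReal_ne_top

/-- The potential of a minimizer is at least the energy everywhere. -/
theorem potential_ge {K : X × X → ℝ} (hK : Continuous K) (hsymm : ∀ x y, K (x, y) = K (y, x))
    {μ : Measure X} [IsProbabilityMeasure μ]
    (hmin : ∀ ν : Measure X, IsProbabilityMeasure ν →
      ∫ z, K z ∂(μ.prod μ) ≤ ∫ z, K z ∂(ν.prod ν)) (x : X) :
    ∫ z, K z ∂(μ.prod μ) ≤ ∫ y, K (x, y) ∂μ := by
  set I := ∫ z, K z ∂(μ.prod μ) with hI
  set U : X → ℝ := fun a => ∫ y, K (a, y) ∂μ with hU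
  have hUc : Continuous U := continuous_potential hK μ
  have hIU : I = ∫ a, U a ∂μ := by
    rw [hI, integral_prod _ (integrable_cont_prod hK μ)]
  have key : ∀ ε : ℝ, 0 < ε → ε ≤ 1 → 2 * I - 2 * U x ≤ ε * (I - 2 * U x + K (x, x)) := by
    intro ε h0 h1
    set ν : Measure X := ENNReal.ofReal (1 - ε) • μ + ENNReal.ofReal ε • Measure.dirac x with hν
    have hprob : IsProbabilityMeasure ν := by
      constructor
      rw [hν]
      simp only [Measure.coe_add, Measure.coe_smul, Pi.add_apply, Pi.smul_apply, measure_univ,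
        smul_eq_mul, mul_one]
      rw [← ENNReal.ofReal_add (by linarith) h0.le]
      simp
    have h2 := hmin ν hprob
    rw [integral_prod _ (integrable_cont_prod hK ν)] at h2
    have h3 : ∀ a, ∫ y, K (a, y) ∂ν = (1 - ε) * U a + ε * K (a, x) := by
      intro a
      rw [hν, integral_mix (f := fun y => K (a, y)) (by fun_prop) x h0.le h1]
    simp only [h3] at h2
    rw [hν, integral_mix (f := fun a => (1 - ε) * U a + ε * K (a, x)) (by fun_prop) x h0.le h1,
      integral_add ((integrable_cont hUc μ).const_mul _)
        ((integrable_cont (f := fun a => K (a, x)) (by fun_prop) μ).const_mul _),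
      integral_const_mul, integral_const_mul, ← hIU] at h2
    have h4 : ∫ a, K (a, x) ∂μ = U x := by
      rw [hU]
      simp only [hsymm _ x]
    rw [h4] at h2
    have h5 : ε * (2 * I - 2 * U x) ≤ ε * (ε * (I - 2 * U x + K (x, x))) := by nlinarith
    exact le_of_mul_le_mul_left h5 h0
  by_contra hneg
  push Not at hneg
  set A := |I - 2 * U x + K (x, x)| + 1 with hA
  have hA0 : 0 < A := by positivity
  have hgap : 0 < I - U x := by linarith
  set ε := min 1 ((I - U x) / A) with hε
  have hε0 : 0 < ε := lt_min one_pos (div_pos hgap hA0)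
  have h := key ε hε0 (min_le_left _ _)
  have h1 : ε * (I - 2 * U x + K (x, x)) ≤ ε * A := by
    apply mul_le_mul_of_nonneg_left _ hε0.le
    have := le_abs_self (I - 2 * U x + K (x, x))
    linarith
  have h2 : ε * A ≤ I - U x := by
    have : ε ≤ (I - U x) / A := min_le_right _ _
    rwa [le_div_iff₀ hA0] at this
  linarith

/-- The potential of a minimizer is equal to the energy on the support. -/
theorem potential_eq {K : X × X → ℝ} (hK : Continuous K) (hsymm : ∀ x y, K (x, y) = K (y, x))
    {μ : Measure X} [IsProbabilityMeasure μ]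
    (hmin : ∀ ν : Measure X, IsProbabilityMeasure ν →
      ∫ z, K z ∂(μ.prod μ) ≤ ∫ z, K z ∂(ν.prod ν)) {x : X} (hx : x ∈ μ.support) :
    ∫ y, K (x, y) ∂μ = ∫ z, K z ∂(μ.prod μ) := by
  set I := ∫ z, K z ∂(μ.prod μ) with hI
  set U : X → ℝ := fun a => ∫ y, K (a, y) ∂μ with hU
  have hUc : Continuous U := continuous_potential hK μ
  have hIU : I = ∫ a, U a ∂μ := by
    rw [hI, integral_prod _ (integrable_cont_prod hK μ)]
  have hge : ∀ a, I ≤ U a := potential_ge hK hsymm hmin
  have hint : Integrable (fun a => U a - I) μ := (integrable_cont hUc μ).sub (integrable_const _)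
  have hzero : ∫ a, (U a - I) ∂μ = 0 := by
    rw [integral_sub (integrable_cont hUc μ) (integrable_const _), ← hIU]
    simp
  have hae := (integral_eq_zero_iff_of_nonneg (fun a => sub_nonneg.mpr (hge a)) hint).mp hzero
  by_contra hne
  have hlt : I < U x := lt_of_le_of_ne (hge x) (Ne.symm hne)
  have hopen : {a | I < U a} ∈ 𝓝 x := (isOpen_lt continuous_const hUc).mem_nhds hlt
  have hpos := (Measure.mem_support_iff_forall x).mp hx _ hopen
  have : μ {a | I < U a} = 0 := by
    refine measure_mono_null ?_ hae
    intro a ha h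
    have h1 : U a - I = 0 := h
    have h2 : I < U a := ha
    linarith
  exact hpos.ne' this

end Pool.Agent.Lib.MP_3f9d7d_an.H30
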