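import Pool.Agent.Lib.MP_3f9d7d_an.H30.Ineq
import Pool.Agent.Lib.MP_3f9d7d_an.H30.EL

open MeasureTheory Metric Set Filter Topology
open scoped InnerProductSpace ENNReal

namespace Pool.Agent.Lib.MP_3f9d7d_an.H30

variable {d : ℕ}

/-- The `p`-frame potential on the whole space. -/
noncomputable def pot (p : ℝ) (μ : Measure (sphere (0 : EuclideanSpace ℝ (Fin d)) 1))
    (z : EuclideanSpace ℝ (Fin d)) : ℝ :=
  ∫ y, |⟪z, (y : EuclideanSpace ℝ (Fin d))⟫_ℝ| ^ p ∂μ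

lemma pot_smul {p : ℝ} (hp : 0 < p) (μ : Measure (sphere (0 : EuclideanSpace ℝ (Fin d)) 1))
    {c : ℝ} (hc : 0 ≤ c) (z : EuclideanSpace ℝ (Fin d)) : pot p μ (c • z) = c ^ p * pot p μ z := by
  unfold pot
  rw [← integral_const_mul]
  congr 1
  funext y
  rw [inner_smul_left, abs_mul]
  simp only [conj_trivial, abs_of_nonneg hc]
  rw [Real.mul_rpow hc (abs_nonneg _)]

/-- The Euler-Lagrange inequality on the whole space. -/
lemma pot_ge {p : ℝ} (hp : 0 < p) {μ : Measure (sphere (0 : EuclideanSpace ℝ (Fin d)) 1)}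
    {I : ℝ} (h : ∀ z : sphere (0 : EuclideanSpace ℝ (Fin d)) 1, I ≤ pot p μ z)
    (z : EuclideanSpace ℝ (Fin d)) : I * ‖z‖ ^ p ≤ pot p μ z := by
  by_cases hz : z = 0
  · subst hz
    have : (0 : EuclideanSpace ℝ (Fin d)) = (0 : ℝ) • 0 := by simp
    rw [this, pot_smul hp μ le_rfl, Real.zero_rpow hp.ne']
    simp [Real.zero_rpow hp.ne']
  · have hn : 0 < ‖z‖ := norm_pos_iff.mpr hz
    have h1 : ‖z‖⁻¹ • z ∈ sphere (0 : EuclideanSpace ℝ (Fin d)) 1 := by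
      rw [mem_sphere_zero_iff_norm, norm_smul, norm_inv, norm_norm, inv_mul_cancel₀ hn.ne']
    have h2 := h ⟨_, h1⟩
    have h3 : z = ‖z‖ • (‖z‖⁻¹ • z) := by
      rw [smul_smul, mul_inv_cancel₀ hn.ne', one_smul]
    conv_rhs => rw [h3, pot_smul hp μ hn.le]
    have h4 : 0 < ‖z‖ ^ p := Real.rpow_pos_of_pos hn p
    have h5 : pot p μ (‖z‖⁻¹ • z) = pot p μ ((⟨_, h1⟩ : sphere (0 : EuclideanSpace ℝ (Fin d)) 1) :
      EuclideanSpace ℝ (Fin d)) := rfl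
    rw [h5]
    nlinarith

lemma cont_term {p : ℝ} (hp : 0 ≤ p) (z : EuclideanSpace ℝ (Fin d)) :
    Continuous fun y : sphere (0 : EuclideanSpace ℝ (Fin d)) 1 =>
      |⟪z, (y : EuclideanSpace ℝ (Fin d))⟫_ℝ| ^ p := by
  apply Continuous.rpow_const
  · fun_prop
  · intro _; exact Or.inr hp

lemma pow_sub_two_mul_self {p a : ℝ} (hp : 1 < p) (ha : 0 ≤ a) : a ^ (p - 2) * a = a ^ (p - 1) := by
  rw [← Real.rpow_add_one' ha (by linarith)]
  ring_nf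

lemma abs_dterm_le {p a : ℝ} (hp : 2 ≤ p) {M : ℝ} (ha : |a| ≤ M) :
    |(|a| ^ (p - 2) * a)| ≤ M ^ (p - 1) := by
  rw [abs_mul, abs_of_nonneg (Real.rpow_nonneg (abs_nonneg a) _),
    pow_sub_two_mul_self (by linarith) (abs_nonneg a)]
  exact Real.rpow_le_rpow (abs_nonneg a) ha (by linarith)

lemma hasDerivAt_pot {p : ℝ} (hp : 2 < p)
    {μ : Measure (sphere (0 : EuclideanSpace ℝ (Fin d)) 1)} [IsProbabilityMeasure μ]
    (x w : EuclideanSpace ℝ (Fin d)) :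
    HasDerivAt (fun t : ℝ => pot p μ (x + t • w))
      (∫ y : sphere (0 : EuclideanSpace ℝ (Fin d)) 1,
        p * (|⟪x, (y : EuclideanSpace ℝ (Fin d))⟫_ℝ| ^ (p - 2) *
          ⟪x, (y : EuclideanSpace ℝ (Fin d))⟫_ℝ) *
        ⟪w, (y : EuclideanSpace ℝ (Fin d))⟫_ℝ ∂μ) 0 := by
  set F : ℝ → sphere (0 : EuclideanSpace ℝ (Fin d)) 1 → ℝ := fun t y =>
    |⟪x + t • w, (y : EuclideanSpace ℝ (Fin d))⟫_ℝ| ^ p with hF
  set F' : ℝ → sphere (0 : EuclideanSpace ℝ (Fin d)) 1 → ℝ := fun t y =>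
    p * (|⟪x + t • w, (y : EuclideanSpace ℝ (Fin d))⟫_ℝ| ^ (p - 2) *
      ⟪x + t • w, (y : EuclideanSpace ℝ (Fin d))⟫_ℝ) *
        ⟪w, (y : EuclideanSpace ℝ (Fin d))⟫_ℝ with hF'
  have hy1 : ∀ y : sphere (0 : EuclideanSpace ℝ (Fin d)) 1, ‖(y : EuclideanSpace ℝ (Fin d))‖ = 1 :=
    fun y => mem_sphere_zero_iff_norm.mp y.2
  have hbd : ∀ (y : sphere (0 : EuclideanSpace ℝ (Fin d)) 1) (z : EuclideanSpace ℝ (Fin d)),
      |⟪z, (y : EuclideanSpace ℝ (Fin d))⟫_ℝ| ≤ ‖z‖ := by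
    intro y z
    have := abs_real_inner_le_norm z (y : EuclideanSpace ℝ (Fin d))
    rwa [hy1, mul_one] at this
  have key := hasDerivAt_integral_of_dominated_loc_of_deriv_le (μ := μ) (𝕜 := ℝ)
    (F := F) (F' := F') (x₀ := 0) (s := ball (0 : ℝ) 1)
    (bound := fun _ => p * (‖x‖ + ‖w‖) ^ (p - 1) * ‖w‖) (ball_mem_nhds 0 one_pos)
    (Eventually.of_forall fun t => (cont_term (by linarith) _).aestronglyMeasurable)
    (integrable_cont (cont_term (by linarith) _) μ)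
    (by
      apply Continuous.aestronglyMeasurable
      apply Continuous.mul
      · apply Continuous.mul continuous_const
        apply Continuous.mul
        · exact cont_term (by linarith) _
        · fun_prop
      · fun_prop)
    (Eventually.of_forall fun y t ht => by
      rw [hF']
      simp only [Real.norm_eq_abs]
      rw [abs_mul, abs_mul, abs_of_pos (show (0 : ℝ) < p by linarith)]
      have h1 : |⟪x + t • w, (y : EuclideanSpace ℝ (Fin d))⟫_ℝ| ≤ ‖x‖ + ‖w‖ := by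
        refine (hbd y _).trans ((norm_add_le _ _).trans ?_)
        rw [norm_smul]
        have : ‖t‖ ≤ 1 := by
          rw [mem_ball_zero_iff] at ht
          exact ht.le
        nlinarith [norm_nonneg w]
      have h2 := abs_dterm_le hp.le h1
      have h3 := hbd y w
      have h4 : 0 ≤ (‖x‖ + ‖w‖) ^ (p - 1) := Real.rpow_nonneg (by positivity) _
      have hp0 : 0 ≤ p := by linarith
      gcongr)
    (integrable_const _)
    (Eventually.of_forall fun y t _ => by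
      rw [hF, hF']
      have h1 : HasDerivAt (fun t : ℝ => ⟪x + t • w, (y : EuclideanSpace ℝ (Fin d))⟫_ℝ)
          ⟪w, (y : EuclideanSpace ℝ (Fin d))⟫_ℝ t := by
        have : (fun t : ℝ => ⟪x + t • w, (y : EuclideanSpace ℝ (Fin d))⟫_ℝ) =
            fun t : ℝ => ⟪x, (y : EuclideanSpace ℝ (Fin d))⟫_ℝ +
              t * ⟪w, (y : EuclideanSpace ℝ (Fin d))⟫_ℝ := by
          funext t
          rw [inner_add_left, inner_smul_left]
          simp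
        rw [this]
        simpa using ((hasDerivAt_id t).mul_const ⟪w, (y : EuclideanSpace ℝ (Fin d))⟫_ℝ).const_add
          ⟪x, (y : EuclideanSpace ℝ (Fin d))⟫_ℝ
      have h2 := (hasDerivAt_abs_rpow ⟪x + t • w, (y : EuclideanSpace ℝ (Fin d))⟫_ℝ
        (p := p) (by linarith)).comp t h1
      refine h2.congr_deriv ?_
      ring)
  have h := key.2
  rw [hF'] at h
  simp only [zero_smul, add_zero] at h
  exact h

/-- The first order condition. -/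
theorem first_order {p : ℝ} (hp : 2 < p)
    {μ : Measure (sphere (0 : EuclideanSpace ℝ (Fin d)) 1)} [IsProbabilityMeasure μ]
    {I : ℝ} (hge : ∀ z : EuclideanSpace ℝ (Fin d), I * ‖z‖ ^ p ≤ pot p μ z)
    {x : EuclideanSpace ℝ (Fin d)} (hx : ‖x‖ = 1) (hxI : pot p μ x = I)
    (w : EuclideanSpace ℝ (Fin d)) :
    ∫ y : sphere (0 : EuclideanSpace ℝ (Fin d)) 1,
        (|⟪x, (y : EuclideanSpace ℝ (Fin d))⟫_ℝ| ^ (p - 2) *
          ⟪x, (y : EuclideanSpace ℝ (Fin d))⟫_ℝ) *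
        ⟪w, (y : EuclideanSpace ℝ (Fin d))⟫_ℝ ∂μ = I * ⟪x, w⟫_ℝ := by
  have h1 := hasDerivAt_pot hp (μ := μ) x w
  have h2 : HasDerivAt (fun t : ℝ => I * ‖x + t • w‖ ^ p) (I * (p * ⟪x, w⟫_ℝ)) 0 := by
    apply HasDerivAt.const_mul
    have e1 : HasDerivAt (fun t : ℝ => x + t • w) w 0 := by
      simpa using ((hasDerivAt_id (0 : ℝ)).smul_const w).const_add x
    have e2 := (hasFDerivAt_norm_rpow (x + (0 : ℝ) • w) (p := p) (by linarith)).comp_hasDerivAt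
      (0 : ℝ) e1
    refine e2.congr_deriv ?_
    simp [hx]
  have h3 := h1.sub h2
  have hmin : IsLocalMin ((fun t : ℝ => pot p μ (x + t • w)) - fun t : ℝ => I * ‖x + t • w‖ ^ p)
      0 := by
    apply Eventually.of_forall
    intro t
    simp only [Pi.sub_apply, zero_smul, add_zero, hx, Real.one_rpow, mul_one, hxI, sub_self]
    linarith [hge (x + t • w)]
  have h4 := hmin.hasDerivAt_eq_zero h3
  have h5 : ∫ y : sphere (0 : EuclideanSpace ℝ (Fin d)) 1,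
        p * (|⟪x, (y : EuclideanSpace ℝ (Fin d))⟫_ℝ| ^ (p - 2) *
          ⟪x, (y : EuclideanSpace ℝ (Fin d))⟫_ℝ) *
        ⟪w, (y : EuclideanSpace ℝ (Fin d))⟫_ℝ ∂μ = p * ∫ y : sphere (0 : EuclideanSpace ℝ (Fin d)) 1,
        (|⟪x, (y : EuclideanSpace ℝ (Fin d))⟫_ℝ| ^ (p - 2) *
          ⟪x, (y : EuclideanSpace ℝ (Fin d))⟫_ℝ) *
        ⟪w, (y : EuclideanSpace ℝ (Fin d))⟫_ℝ ∂μ := by
    rw [← integral_const_mul]
    congr 1
    funext y
    ring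
  rw [h5] at h4
  have hp0 : p ≠ 0 := by linarith
  have h6 : p * (∫ y : sphere (0 : EuclideanSpace ℝ (Fin d)) 1,
        (|⟪x, (y : EuclideanSpace ℝ (Fin d))⟫_ℝ| ^ (p - 2) *
          ⟪x, (y : EuclideanSpace ℝ (Fin d))⟫_ℝ) *
        ⟪w, (y : EuclideanSpace ℝ (Fin d))⟫_ℝ ∂μ) = p * (I * ⟪x, w⟫_ℝ) := by linarith
  exact mul_left_cancel₀ hp0 h6

/-- The chord defect. -/
noncomputable def Psi (p α β : ℝ) : ℝ :=
  |(α + β) / 2| ^ p - (|α| ^ p + |β| ^ p) / 2 +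
    p / 8 * ((β - α) * (|β| ^ (p - 2) * β - |α| ^ (p - 2) * α))

lemma Psi_neg (p α β : ℝ) : Psi p (-α) (-β) = Psi p α β := by
  unfold Psi
  have h1 : |(-α + -β) / 2| = |(α + β) / 2| := by
    rw [← abs_neg]
    ring_nf
  rw [h1, abs_neg, abs_neg]
  ring

lemma Psi_nonpos {p α β : ℝ} (hp2 : 2 ≤ p) (hp3 : p ≤ 3) (h : 0 ≤ α * β) : Psi p α β ≤ 0 := by
  have key : ∀ a b : ℝ, 0 ≤ a → 0 ≤ b → Psi p a b ≤ 0 := by
    intro a b ha hb
    unfold Psi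
    rw [abs_of_nonneg ha, abs_of_nonneg hb, abs_of_nonneg (show 0 ≤ (a + b) / 2 by linarith),
      pow_sub_two_mul_self (by linarith) ha, pow_sub_two_mul_self (by linarith) hb]
    linarith [chord_le hp2 hp3 ha hb]
  rcases mul_nonneg_iff.mp h with ⟨ha, hb⟩ | ⟨ha, hb⟩
  · exact key α β ha hb
  · rw [← Psi_neg]
    exact key _ _ (by linarith) (by linarith)

lemma continuous_Psi {p : ℝ} (hp : 2 < p) (x x' : EuclideanSpace ℝ (Fin d)) :
    Continuous fun y : sphere (0 : EuclideanSpace ℝ (Fin d)) 1 =>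
      Psi p ⟪x, (y : EuclideanSpace ℝ (Fin d))⟫_ℝ ⟪x', (y : EuclideanSpace ℝ (Fin d))⟫_ℝ := by
  unfold Psi
  have h1 : ∀ z : EuclideanSpace ℝ (Fin d),
      Continuous fun y : sphere (0 : EuclideanSpace ℝ (Fin d)) 1 =>
        |⟪z, (y : EuclideanSpace ℝ (Fin d))⟫_ℝ| ^ (p - 2) := fun z => cont_term (by linarith) z
  have h2 : ∀ z : EuclideanSpace ℝ (Fin d),
      Continuous fun y : sphere (0 : EuclideanSpace ℝ (Fin d)) 1 =>
        |⟪z, (y : EuclideanSpace ℝ (Fin d))⟫_ℝ| ^ p := fun z => cont_term (by linarith) z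
  have h3 : Continuous fun y : sphere (0 : EuclideanSpace ℝ (Fin d)) 1 =>
      |(⟪x, (y : EuclideanSpace ℝ (Fin d))⟫_ℝ + ⟪x', (y : EuclideanSpace ℝ (Fin d))⟫_ℝ) / 2| ^ p :=
    Continuous.rpow_const (by fun_prop) fun _ => Or.inr (by linarith)
  have h4 : ∀ z : EuclideanSpace ℝ (Fin d),
      Continuous fun y : sphere (0 : EuclideanSpace ℝ (Fin d)) 1 =>
        ⟪z, (y : EuclideanSpace ℝ (Fin d))⟫_ℝ := fun z => by fun_prop
  exact (h3.sub (((h2 x).add (h2 x')).div_const 2)).add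
    ((((h4 x').sub (h4 x)).mul (((h1 x').mul (h4 x')).sub ((h1 x).mul (h4 x)))).const_mul _)

theorem integral_Psi {p : ℝ} (hp : 2 < p)
    {μ : Measure (sphere (0 : EuclideanSpace ℝ (Fin d)) 1)} [IsProbabilityMeasure μ]
    {I : ℝ} (hge : ∀ z : EuclideanSpace ℝ (Fin d), I * ‖z‖ ^ p ≤ pot p μ z)
    {x x' : EuclideanSpace ℝ (Fin d)} (hx : ‖x‖ = 1) (hxI : pot p μ x = I)
    (hx' : ‖x'‖ = 1) (hxI' : pot p μ x' = I) :
    ∫ y : sphere (0 : EuclideanSpace ℝ (Fin d)) 1,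
      Psi p ⟪x, (y : EuclideanSpace ℝ (Fin d))⟫_ℝ ⟪x', (y : EuclideanSpace ℝ (Fin d))⟫_ℝ ∂μ =
      pot p μ ((1 / 2 : ℝ) • (x + x')) - I + p / 4 * (I * (1 - ⟪x, x'⟫_ℝ)) := by
  set D : EuclideanSpace ℝ (Fin d) → EuclideanSpace ℝ (Fin d) →
      sphere (0 : EuclideanSpace ℝ (Fin d)) 1 → ℝ := fun z w y =>
    (|⟪z, (y : EuclideanSpace ℝ (Fin d))⟫_ℝ| ^ (p - 2) *
      ⟪z, (y : EuclideanSpace ℝ (Fin d))⟫_ℝ) * ⟪w, (y : EuclideanSpace ℝ (Fin d))⟫_ℝ with hD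
  have hDc : ∀ z w, Continuous (D z w) := by
    intro z w
    have h1 := cont_term (d := d) (p := p - 2) (by linarith) z
    exact (h1.mul (by fun_prop)).mul (by fun_prop)
  have hDi : ∀ z w, Integrable (D z w) μ := fun z w => integrable_cont (hDc z w) μ
  have hTi : ∀ z : EuclideanSpace ℝ (Fin d),
      Integrable (fun y : sphere (0 : EuclideanSpace ℝ (Fin d)) 1 =>
        |⟪z, (y : EuclideanSpace ℝ (Fin d))⟫_ℝ| ^ p) μ :=
    fun z => integrable_cont (cont_term (by linarith) z) μ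
  have hexp : ∀ y : sphere (0 : EuclideanSpace ℝ (Fin d)) 1,
      Psi p ⟪x, (y : EuclideanSpace ℝ (Fin d))⟫_ℝ ⟪x', (y : EuclideanSpace ℝ (Fin d))⟫_ℝ =
      |⟪(1 / 2 : ℝ) • (x + x'), (y : EuclideanSpace ℝ (Fin d))⟫_ℝ| ^ p -
      (|⟪x, (y : EuclideanSpace ℝ (Fin d))⟫_ℝ| ^ p +
        |⟪x', (y : EuclideanSpace ℝ (Fin d))⟫_ℝ| ^ p) / 2 +
      p / 8 * ((D x' x' y - D x' x y) - (D x x' y - D x x y)) := by
    intro y
    unfold Psi
    rw [hD]
    have h1 : ⟪(1 / 2 : ℝ) • (x + x'), (y : EuclideanSpace ℝ (Fin d))⟫_ℝ =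
        (⟪x, (y : EuclideanSpace ℝ (Fin d))⟫_ℝ + ⟪x', (y : EuclideanSpace ℝ (Fin d))⟫_ℝ) / 2 := by
      rw [inner_smul_left, inner_add_left]
      simp
      ring
    rw [h1]
    ring
  simp only [hexp]
  rw [integral_add, integral_sub (hTi _), integral_div, integral_add (hTi _) (hTi _),
    integral_const_mul, integral_sub, integral_sub (hDi _ _) (hDi _ _),
    integral_sub (hDi _ _) (hDi _ _)]
  · have e1 : ∫ y, D x' x' y ∂μ = I * ⟪x', x'⟫_ℝ := first_order hp hge hx' hxI' x'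
    have e2 : ∫ y, D x' x y ∂μ = I * ⟪x', x⟫_ℝ := first_order hp hge hx' hxI' x
    have e3 : ∫ y, D x x' y ∂μ = I * ⟪x, x'⟫_ℝ := first_order hp hge hx hxI x'
    have e4 : ∫ y, D x x y ∂μ = I * ⟪x, x⟫_ℝ := first_order hp hge hx hxI x
    rw [e1, e2, e3, e4, real_inner_self_eq_norm_sq, real_inner_self_eq_norm_sq, hx, hx',
      real_inner_comm x x']
    have f1 : ∫ y : sphere (0 : EuclideanSpace ℝ (Fin d)) 1,
        |⟪x, (y : EuclideanSpace ℝ (Fin d))⟫_ℝ| ^ p ∂μ = I := hxI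
    have f2 : ∫ y : sphere (0 : EuclideanSpace ℝ (Fin d)) 1,
        |⟪x', (y : EuclideanSpace ℝ (Fin d))⟫_ℝ| ^ p ∂μ = I := hxI'
    have f3 : ∫ y : sphere (0 : EuclideanSpace ℝ (Fin d)) 1,
        |⟪(1 / 2 : ℝ) • (x + x'), (y : EuclideanSpace ℝ (Fin d))⟫_ℝ| ^ p ∂μ =
        pot p μ ((1 / 2 : ℝ) • (x + x')) := rfl
    rw [f1, f2, f3]
    ring
  · exact (hDi _ _).sub (hDi _ _)
  · exact (hDi _ _).sub (hDi _ _)
  · exact ((hTi _).add (hTi _)).div_const 2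
  · exact (hTi _).sub (((hTi _).add (hTi _)).div_const 2)
  · exact (((hDi _ _).sub (hDi _ _)).sub ((hDi _ _).sub (hDi _ _))).const_mul _

lemma norm_mid {x x' : EuclideanSpace ℝ (Fin d)} (hx : ‖x‖ = 1) (hx' : ‖x'‖ = 1) :
    ‖(1 / 2 : ℝ) • (x + x')‖ ^ 2 = 1 - (1 - ⟪x, x'⟫_ℝ) / 2 := by
  rw [norm_smul, mul_pow, norm_add_sq_real, hx, hx']
  norm_num
  ring

lemma norm_mid_rpow {p : ℝ} {x x' : EuclideanSpace ℝ (Fin d)} (hx : ‖x‖ = 1) (hx' : ‖x'‖ = 1) :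
    ‖(1 / 2 : ℝ) • (x + x')‖ ^ p = (1 - (1 - ⟪x, x'⟫_ℝ) / 2) ^ (p / 2) := by
  rw [← norm_mid hx hx', ← Real.rpow_natCast, ← Real.rpow_mul (norm_nonneg _)]
  congr 1
  push_cast
  ring

/-- Two distinct contact points have to be separated by a point of the support. -/
theorem no_pair {p : ℝ} (hp2 : 2 < p) (hp3 : p ≤ 3)
    {μ : Measure (sphere (0 : EuclideanSpace ℝ (Fin d)) 1)} [IsProbabilityMeasure μ]
    {I : ℝ} (hI : 0 < I) (hge : ∀ z : EuclideanSpace ℝ (Fin d), I * ‖z‖ ^ p ≤ pot p μ z)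
    {x x' : EuclideanSpace ℝ (Fin d)} (hx : ‖x‖ = 1) (hxI : pot p μ x = I)
    (hx' : ‖x'‖ = 1) (hxI' : pot p μ x' = I) (hne : x ≠ x')
    (hs : ∀ y ∈ μ.support, 0 ≤ ⟪x, (y : EuclideanSpace ℝ (Fin d))⟫_ℝ *
      ⟪x', (y : EuclideanSpace ℝ (Fin d))⟫_ℝ) : False := by
  have h1 := integral_Psi hp2 hge hx hxI hx' hxI'
  have h2 : ∫ y : sphere (0 : EuclideanSpace ℝ (Fin d)) 1,
      Psi p ⟪x, (y : EuclideanSpace ℝ (Fin d))⟫_ℝ ⟪x', (y : EuclideanSpace ℝ (Fin d))⟫_ℝ ∂μ ≤ 0 := by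
    apply integral_nonpos_of_ae
    filter_upwards [Measure.support_mem_ae (μ := μ)] with y hy
    exact Psi_nonpos hp2.le hp3 (hs y hy)
  rw [h1] at h2
  have h3 := hge ((1 / 2 : ℝ) • (x + x'))
  rw [norm_mid_rpow hx hx'] at h3
  set c := ⟪x, x'⟫_ℝ with hc
  have hc1 : c < 1 := by
    have h := norm_sub_sq_real x x'
    rw [hx, hx'] at h
    have h' : 0 < ‖x - x'‖ := norm_pos_iff.mpr (sub_ne_zero.mpr hne)
    nlinarith
  have hc2 : -1 ≤ c := by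
    have h := abs_real_inner_le_norm x x'
    rw [hx, hx', mul_one] at h
    exact (abs_le.mp h).1
  have h4 := one_add_mul_self_lt_rpow_one_add (s := -((1 - c) / 2)) (by linarith)
    (by linarith) (p := p / 2) (by linarith)
  have h5 : (1 + -((1 - c) / 2)) = 1 - (1 - c) / 2 := by ring
  rw [h5] at h4
  nlinarith

end Pool.Agent.Lib.MP_3f9d7d_an.H30
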