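import Mathlib

open Set

namespace Pool.Agent.Lib.MP_3f9d7d_an.H30

/-- The ideal of the polynomials vanishing on a set of points. -/
noncomputable def vIdeal {σ A : Type*} (pt : A → σ → ℝ) (C : Set A) : Ideal (MvPolynomial σ ℝ) where
  carrier := {P | ∀ x ∈ C, MvPolynomial.eval (pt x) P = 0}
  add_mem' := by
    intro a b ha hb x hx
    rw [map_add, ha x hx, hb x hx, add_zero]
  zero_mem' := by
    intro x _
    simp
  smul_mem' := by
    intro c P hP x hx
    rw [smul_eq_mul, map_mul, hP x hx, mul_zero]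

lemma mem_vIdeal {σ A : Type*} {pt : A → σ → ℝ} {C : Set A} {P : MvPolynomial σ ℝ} :
    P ∈ vIdeal pt C ↔ ∀ x ∈ C, MvPolynomial.eval (pt x) P = 0 := Iff.rfl

/-- An infinite set contains an infinite set `C` such that a polynomial vanishing on infinitely
many points of `C` vanishes on `C`. -/
theorem exists_cluster {σ A : Type*} [Finite σ] (pt : A → σ → ℝ) {B : Set A} (hB : B.Infinite) :
    ∃ C ⊆ B, C.Infinite ∧ ∀ (P : MvPolynomial σ ℝ) (C' : Set A), C' ⊆ C → C'.Infinite →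
      (∀ x ∈ C', MvPolynomial.eval (pt x) P = 0) → ∀ x ∈ C, MvPolynomial.eval (pt x) P = 0 := by
  set 𝒮 : Set (Ideal (MvPolynomial σ ℝ)) := {J | ∃ C ⊆ B, C.Infinite ∧ J = vIdeal pt C} with h𝒮
  have hne : 𝒮.Nonempty := ⟨_, B, subset_rfl, hB, rfl⟩
  obtain ⟨J, ⟨C, hCB, hC, rfl⟩, hmax⟩ := set_has_maximal_iff_noetherian.mpr inferInstance 𝒮 hne
  refine ⟨C, hCB, hC, fun P C' hC' hinf hP => ?_⟩
  have h1 : vIdeal pt C ≤ vIdeal pt C' := fun Q hQ x hx => hQ x (hC' hx)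
  have h2 := hmax _ ⟨C', hC'.trans hCB, hinf, rfl⟩
  have h3 : vIdeal pt C' ≤ vIdeal pt C := by
    by_contra h
    exact h2 (lt_of_le_not_ge h1 h)
  exact mem_vIdeal.mp (h3 (mem_vIdeal.mpr hP))

end Pool.Agent.Lib.MP_3f9d7d_an.H30
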