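import Pool.Agent.Lib.MP_3f9d7d_an.H30.Chord

open Set Filter Topology

namespace Pool.Agent.Lib.MP_3f9d7d_an.H30

/-- No positive constant is bounded by `C * τ ^ q` for small `τ`. -/
lemma not_small {a C q : ℝ} (ha : 0 < a) (hq : 0 < q) {δ : ℝ} (hδ : 0 < δ)
    (h : ∀ τ : ℝ, 0 < τ → τ < δ → a ≤ C * τ ^ q) : False := by
  have h1 : Tendsto (fun τ : ℝ => C * τ ^ q) (𝓝[>] 0) (𝓝 (C * 0 ^ q)) := by
    apply Tendsto.const_mul
    have : ContinuousAt (fun τ : ℝ => τ ^ q) 0 := Real.continuousAt_rpow_const _ _ (Or.inr hq.le)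
    exact this.tendsto.mono_left nhdsWithin_le_nhds
  rw [Real.zero_rpow hq.ne', mul_zero] at h1
  have h2 : ∀ᶠ τ : ℝ in 𝓝[>] 0, C * τ ^ q < a := h1.eventually (gt_mem_nhds ha)
  have h3 : ∀ᶠ τ : ℝ in 𝓝[>] 0, τ ∈ Ioo 0 δ := Ioo_mem_nhdsGT hδ
  obtain ⟨τ, h4, h5⟩ := (h2.and h3).exists
  exact absurd (h τ h5.1 h5.2) (not_le.mpr h4)

lemma hasDerivAt_dabs {p : ℝ} (hp : 2 < p) :
    HasDerivAt (fun u : ℝ => |u| ^ (p - 2) * u) 0 0 := by
  rw [hasDerivAt_iff_tendsto_slope]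
  have h1 : Tendsto (fun u : ℝ => |u| ^ (p - 2)) (𝓝[≠] 0) (𝓝 0) := by
    have h : ContinuousAt (fun u : ℝ => |u| ^ (p - 2)) 0 :=
      (continuous_abs.continuousAt).rpow_const (Or.inr (by linarith))
    have h2 := h.tendsto
    rw [abs_zero, Real.zero_rpow (by linarith)] at h2
    exact h2.mono_left nhdsWithin_le_nhds
  refine h1.congr' ?_
  filter_upwards [self_mem_nhdsWithin] with u hu
  have hu' : u ≠ 0 := hu
  rw [slope_def_field]
  field_simp
  simp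

/-- If `|ψ| ^ p` with `2 < p < 3` has three derivatives, the zeros of `ψ` are not simple. -/
theorem tangency {p : ℝ} (hp2 : 2 < p) (hp3 : p < 3) {b : ℝ} {ψ ψ1 ψ2 f f1 f2 f3 : ℝ → ℝ}
    (hψ : ∀ t ∈ Ioo 0 b, HasDerivAt ψ (ψ1 t) t) (hψ1 : ∀ t ∈ Ioo 0 b, HasDerivAt ψ1 (ψ2 t) t)
    (hf : ∀ t ∈ Ioo 0 b, f t = |ψ t| ^ p)
    (hf1 : ∀ t ∈ Ioo 0 b, HasDerivAt f (f1 t) t) (hf2 : ∀ t ∈ Ioo 0 b, HasDerivAt f1 (f2 t) t)
    (hf3 : ∀ t ∈ Ioo 0 b, HasDerivAt f2 (f3 t) t) {t1 : ℝ} (ht1 : t1 ∈ Ioo 0 b)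
    (h0 : ψ t1 = 0) : ψ1 t1 = 0 := by
  have hA : ∀ t ∈ Ioo 0 b, f1 t = p * (|ψ t| ^ (p - 2) * ψ t) * ψ1 t := by
    intro t ht
    have e1 := (hasDerivAt_abs_rpow (ψ t) (p := p) (by linarith)).comp t (hψ t ht)
    have e2 : HasDerivAt (fun s => |ψ s| ^ p) (f1 t) t := by
      apply (hf1 t ht).congr_of_eventuallyEq
      filter_upwards [Ioo_mem_nhds ht.1 ht.2] with s hs
      exact (hf s hs).symm
    have e3 : HasDerivAt (fun s => |ψ s| ^ p) (p * |ψ t| ^ (p - 2) * ψ t * ψ1 t) t := e1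
    rw [e2.unique e3]
    ring
  have hf1t1 : f1 t1 = 0 := by
    rw [hA t1 ht1, h0]
    simp
  have hB : f2 t1 = 0 := by
    have e1 : HasDerivAt (fun t => |ψ t| ^ (p - 2) * ψ t) (0 * ψ1 t1) t1 := by
      have h : HasDerivAt (fun u : ℝ => |u| ^ (p - 2) * u) 0 (ψ t1) := by
        rw [h0]
        exact hasDerivAt_dabs hp2
      exact h.comp t1 (hψ t1 ht1)
    have e2 := ((e1.const_mul p).mul (hψ1 t1 ht1))
    have e3 : HasDerivAt f1 (p * (0 * ψ1 t1) * ψ1 t1 + p * (|ψ t1| ^ (p - 2) * ψ t1) * ψ2 t1)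
        t1 := by
      apply e2.congr_of_eventuallyEq
      filter_upwards [Ioo_mem_nhds ht1.1 ht1.2] with s hs
      exact hA s hs
    rw [(hf2 t1 ht1).unique e3, h0]
    simp
  by_contra hne
  set a := ψ1 t1 with ha
  have ha0 : 0 < |a| := abs_pos.mpr hne
  -- f2 is O(t - t1)
  obtain ⟨C₀, hC⟩ := (hf3 t1 ht1).isBigO_sub.bound
  obtain ⟨δ1, hδ1, hC1'⟩ := Metric.eventually_nhds_iff.mp hC
  set C := |C₀| with hCdef
  have hC0 : 0 ≤ C := abs_nonneg _
  have hC1 : ∀ y : ℝ, dist y t1 < δ1 → ‖f2 y - f2 t1‖ ≤ C * ‖y - t1‖ := fun y hy =>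
    (hC1' hy).trans (mul_le_mul_of_nonneg_right (le_abs_self _) (norm_nonneg _))
  -- ψ is at least |a|/2 |t - t1|
  have hlow : ∀ᶠ t in 𝓝[>] t1, |a| / 2 * (t - t1) ≤ |ψ t| := by
    have h1 := (hasDerivAt_iff_tendsto_slope.mp (hψ t1 ht1)).abs
    have h2 : ∀ᶠ t in 𝓝[≠] t1, |a| / 2 < |slope ψ t1 t| :=
      h1.eventually (lt_mem_nhds (by rw [← ha]; linarith))
    have h3 : ∀ᶠ t in 𝓝[>] t1, |a| / 2 < |slope ψ t1 t| :=
      h2.filter_mono (nhdsWithin_mono _ fun t ht => ne_of_gt ht)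
    filter_upwards [h3, self_mem_nhdsWithin] with t ht1' ht2
    have ht3 : 0 < t - t1 := sub_pos.mpr ht2
    rw [slope_def_field, h0, sub_zero, abs_div, abs_of_pos ht3, lt_div_iff₀ ht3] at ht1'
    exact ht1'.le
  have hlow1 : ∀ᶠ t in 𝓝[>] t1, |a| / 2 ≤ |ψ1 t| := by
    have h1 : ContinuousAt (fun t => |ψ1 t|) t1 := (hψ1 t1 ht1).continuousAt.abs
    have h2 : ∀ᶠ t in 𝓝 t1, |a| / 2 < |ψ1 t| := h1.eventually (lt_mem_nhds (by
      simp only
      rw [← ha]; linarith))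
    exact (h2.filter_mono nhdsWithin_le_nhds).mono fun t ht => ht.le
  obtain ⟨δ2, hδ2, hlo⟩ := mem_nhdsGT_iff_exists_Ioo_subset.mp (hlow.and hlow1)
  set δ := min δ1 (min (δ2 - t1) (b - t1)) with hδ
  have hδ0 : 0 < δ := lt_min hδ1 (lt_min (sub_pos.mpr hδ2) (sub_pos.mpr ht1.2))
  apply not_small (a := p * (|a| / 2) ^ (p - 1) * (|a| / 2)) (C := C) (q := 3 - p) (δ := δ)
    (by positivity) (by linarith) hδ0
  intro τ hτ0 hτδ
  have hτ1 : τ < δ1 := hτδ.trans_le (min_le_left _ _)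
  have hτ2 : τ < δ2 - t1 := hτδ.trans_le ((min_le_right _ _).trans (min_le_left _ _))
  have hτ3 : τ < b - t1 := hτδ.trans_le ((min_le_right _ _).trans (min_le_right _ _))
  have hmem : ∀ s ∈ Icc t1 (t1 + τ), s ∈ Ioo 0 b := fun s hs =>
    ⟨lt_of_lt_of_le ht1.1 hs.1, by linarith [hs.2]⟩
  have hup : |f1 (t1 + τ)| ≤ C * τ * τ := by
    have h1 := norm_image_sub_le_of_norm_deriv_le_segment' (f := f1) (f' := f2) (C := C * τ)
      (a := t1) (b := t1 + τ) (fun s hs => (hf2 s (hmem s hs)).hasDerivWithinAt) (by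
        intro s hs
        have h2 := hC1 s (by
          rw [Real.dist_eq, abs_of_nonneg (by linarith [hs.1])]
          linarith [hs.2])
        rw [hB, sub_zero] at h2
        refine h2.trans ?_
        apply mul_le_mul_of_nonneg_left _ hC0
        rw [Real.norm_eq_abs, abs_of_nonneg (by linarith [hs.1])]
        linarith [hs.2]) (t1 + τ) ⟨by linarith, le_refl _⟩
    rw [hf1t1, sub_zero, Real.norm_eq_abs] at h1
    calc |f1 (t1 + τ)| ≤ C * τ * (t1 + τ - t1) := h1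
      _ = C * τ * τ := by ring
  obtain ⟨hl1, hl2⟩ := hlo (a := t1 + τ) ⟨by linarith, by linarith⟩
  have hdown : p * (|a| / 2 * τ) ^ (p - 1) * (|a| / 2) ≤ |f1 (t1 + τ)| := by
    rw [hA (t1 + τ) (hmem _ ⟨by linarith, le_refl _⟩), abs_mul, abs_mul,
      abs_of_pos (show (0 : ℝ) < p by linarith), abs_mul,
      abs_of_nonneg (Real.rpow_nonneg (abs_nonneg _) _),
      pow_sub_two_mul_self (by linarith) (abs_nonneg _)]
    have e1 : (|a| / 2 * τ) ^ (p - 1) ≤ |ψ (t1 + τ)| ^ (p - 1) := by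
      apply Real.rpow_le_rpow (by positivity) _ (by linarith)
      have : |a| / 2 * (t1 + τ - t1) ≤ |ψ (t1 + τ)| := hl1
      rwa [add_sub_cancel_left] at this
    have hp0 : 0 ≤ p := by linarith
    gcongr
  rw [Real.mul_rpow (by positivity) hτ0.le] at hdown
  have h1 := hdown.trans hup
  have e1 : τ ^ (p - 1) * τ ^ (3 - p) = τ * τ := by
    rw [← Real.rpow_add hτ0]
    have : p - 1 + (3 - p) = (2 : ℕ) := by push_cast; ring
    rw [this, Real.rpow_natCast]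
    ring
  have hτp : 0 < τ ^ (p - 1) := Real.rpow_pos_of_pos hτ0 _
  have h2 : τ ^ (p - 1) * (p * (|a| / 2) ^ (p - 1) * (|a| / 2)) ≤
      τ ^ (p - 1) * (C * τ ^ (3 - p)) := by
    calc τ ^ (p - 1) * (p * (|a| / 2) ^ (p - 1) * (|a| / 2)) =
        p * ((|a| / 2) ^ (p - 1) * τ ^ (p - 1)) * (|a| / 2) := by ring
      _ ≤ C * τ * τ := h1
      _ = C * (τ ^ (p - 1) * τ ^ (3 - p)) := by rw [e1]; ring
      _ = _ := by ring
  exact le_of_mul_le_mul_left h2 hτp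

/-- Second order lower bound for `(1 - u) ^ r`. -/
lemma taylor_lower {r u : ℝ} (hr1 : 1 ≤ r) (hr2 : r ≤ 2) (hu0 : 0 ≤ u) (hu1 : u < 1) :
    1 - r * u + r * (r - 1) / 2 * u ^ 2 ≤ (1 - u) ^ r := by
  -- first derivative
  set g : ℝ → ℝ := fun u => -(r * (1 - u) ^ (r - 1)) + r - r * (r - 1) * u with hg
  have hgd : ∀ t ∈ Ico (0 : ℝ) 1, HasDerivAt g (r * (r - 1) * ((1 - t) ^ (r - 1 - 1) - 1)) t := by
    intro t ht
    have h2 : (1 - t) ≠ 0 := by linarith [ht.2]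
    have d2 : HasDerivAt (fun t : ℝ => 1 - t) (-1) t := (hasDerivAt_id t).const_sub 1
    have e2 := d2.rpow_const (p := r - 1) (Or.inl h2)
    have e3 : HasDerivAt (fun t : ℝ => r * (r - 1) * t) (r * (r - 1)) t := by
      simpa using (hasDerivAt_id t).const_mul (r * (r - 1))
    have h := ((e2.const_mul r).neg.add_const r).sub e3
    refine h.congr_deriv ?_
    ring
  have hgm : MonotoneOn g (Ico 0 1) := by
    apply monotoneOn_of_deriv_nonneg (convex_Ico 0 1)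
    · exact fun t ht => (hgd t ht).continuousAt.continuousWithinAt
    · intro t ht
      rw [interior_Ico] at ht
      exact (hgd t ⟨ht.1.le, ht.2⟩).differentiableAt.differentiableWithinAt
    · intro t ht
      rw [interior_Ico] at ht
      rw [(hgd t ⟨ht.1.le, ht.2⟩).deriv]
      have h2 : 1 ≤ (1 - t) ^ (r - 1 - 1) :=
        Real.one_le_rpow_of_pos_of_le_one_of_nonpos (by linarith [ht.2]) (by linarith [ht.1])
          (by linarith)
      exact mul_nonneg (mul_nonneg (by linarith) (by linarith)) (by linarith)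
  have hg0 : g 0 = 0 := by simp [hg]
  have hgn : ∀ t ∈ Ico (0 : ℝ) 1, 0 ≤ g t := by
    intro t ht
    rw [← hg0]
    exact hgm ⟨le_refl _, one_pos⟩ ht ht.1
  set h : ℝ → ℝ := fun u => (1 - u) ^ r - (1 - r * u + r * (r - 1) / 2 * u ^ 2) with hh
  have hhd : ∀ t ∈ Ico (0 : ℝ) 1, HasDerivAt h (g t) t := by
    intro t ht
    have h2 : (1 - t) ≠ 0 := by linarith [ht.2]
    have d2 : HasDerivAt (fun t : ℝ => 1 - t) (-1) t := (hasDerivAt_id t).const_sub 1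
    have e2 := d2.rpow_const (p := r) (Or.inl h2)
    have e3 : HasDerivAt (fun t : ℝ => 1 - r * t) (-r) t := by
      simpa using ((hasDerivAt_id t).const_mul r).const_sub 1
    have e4 : HasDerivAt (fun t : ℝ => r * (r - 1) / 2 * t ^ 2) (r * (r - 1) / 2 * (2 * t)) t := by
      simpa using (hasDerivAt_pow 2 t).const_mul (r * (r - 1) / 2)
    have h := e2.sub (e3.add e4)
    refine h.congr_deriv ?_
    rw [hg]
    ring
  have hhm : MonotoneOn h (Ico 0 1) := by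
    apply monotoneOn_of_deriv_nonneg (convex_Ico 0 1)
    · exact fun t ht => (hhd t ht).continuousAt.continuousWithinAt
    · intro t ht
      rw [interior_Ico] at ht
      exact (hhd t ⟨ht.1.le, ht.2⟩).differentiableAt.differentiableWithinAt
    · intro t ht
      rw [interior_Ico] at ht
      rw [(hhd t ⟨ht.1.le, ht.2⟩).deriv]
      exact hgn t ⟨ht.1.le, ht.2⟩
  have hh0 : h 0 = 0 := by simp [hh]
  have := hhm (⟨le_refl _, one_pos⟩ : (0 : ℝ) ∈ Ico (0 : ℝ) 1) ⟨hu0, hu1⟩ hu0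
  rw [hh0] at this
  have h' : 0 ≤ (1 - u) ^ r - (1 - r * u + r * (r - 1) / 2 * u ^ 2) := this
  linarith

lemma Psi_le {p ρ α β : ℝ} (hp : 2 < p) (hα : |α| ≤ ρ) (hβ : |β| ≤ ρ) :
    Psi p α β ≤ (1 + p / 2) * ρ ^ p := by
  unfold Psi
  have hρ : 0 ≤ ρ := (abs_nonneg _).trans hα
  have h1 : |(α + β) / 2| ≤ ρ := by
    rw [abs_div, abs_two, div_le_iff₀ two_pos]
    have := abs_add_le α β
    linarith
  have h2 : |(α + β) / 2| ^ p ≤ ρ ^ p := Real.rpow_le_rpow (abs_nonneg _) h1 (by linarith)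
  have h3 : 0 ≤ (|α| ^ p + |β| ^ p) / 2 := by positivity
  have h4 := abs_dterm_le hp.le hα
  have h5 := abs_dterm_le hp.le hβ
  have h6 : |β - α| ≤ 2 * ρ := by
    have := abs_sub β α
    linarith
  have h7 : |(|β| ^ (p - 2) * β - |α| ^ (p - 2) * α)| ≤ 2 * ρ ^ (p - 1) := by
    have := abs_sub (|β| ^ (p - 2) * β) (|α| ^ (p - 2) * α)
    linarith
  have h8 : (β - α) * (|β| ^ (p - 2) * β - |α| ^ (p - 2) * α) ≤ 2 * ρ * (2 * ρ ^ (p - 1)) := by
    refine (le_abs_self _).trans ?_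
    rw [abs_mul]
    exact mul_le_mul h6 h7 (abs_nonneg _) (by linarith)
  have h9 : ρ * ρ ^ (p - 1) = ρ ^ p := by
    rcases hρ.eq_or_lt with h | h
    · rw [← h, Real.zero_rpow (show p ≠ 0 by linarith), zero_mul]
    · rw [Real.rpow_sub_one h.ne']
      field_simp
  nlinarith

end Pool.Agent.Lib.MP_3f9d7d_an.H30
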