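import Pool.Agent.Lib.MP_3f9d7d_an.H30.Arc
import Pool.Agent.Lib.MP_3f9d7d_an.H30.Tangent

open Set MvPolynomial Filter Topology MeasureTheory Metric
open scoped InnerProductSpace

namespace Pool.Agent.Lib.MP_3f9d7d_an.H30

variable {d N : ℕ}

lemma continuous_coef {p : ℝ} (hp : 0 < p) (w : Fin N → EuclideanSpace ℝ (Fin d))
    (Q : Matrix (Fin N) (Fin N) ℝ) (j : Fin N) :
    Continuous fun y : sphere (0 : EuclideanSpace ℝ (Fin d)) 1 =>
      coef p w Q (y : EuclideanSpace ℝ (Fin d)) j := by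
  unfold coef
  apply continuous_finsetSum
  intro i _
  exact (cont_term hp.le (w i)).const_mul _

/-- The potential at a point where the kernel is represented by the family. -/
lemma pot_eq_sum {p : ℝ} (hp : 0 < p) {w : Fin N → EuclideanSpace ℝ (Fin d)}
    {Q : Matrix (Fin N) (Fin N) ℝ}
    {μ : Measure (sphere (0 : EuclideanSpace ℝ (Fin d)) 1)} [IsProbabilityMeasure μ]
    {z : EuclideanSpace ℝ (Fin d)}
    (h : ∀ y ∈ μ.support, |⟪z, (y : EuclideanSpace ℝ (Fin d))⟫_ℝ| ^ p =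
      ∑ j, coef p w Q (y : EuclideanSpace ℝ (Fin d)) j * ⟪w j, z⟫_ℝ ^ p) :
    pot p μ z = ∑ j, (∫ y : sphere (0 : EuclideanSpace ℝ (Fin d)) 1,
      coef p w Q (y : EuclideanSpace ℝ (Fin d)) j ∂μ) * ⟪w j, z⟫_ℝ ^ p := by
  unfold pot
  have h1 : ∫ y : sphere (0 : EuclideanSpace ℝ (Fin d)) 1,
      |⟪z, (y : EuclideanSpace ℝ (Fin d))⟫_ℝ| ^ p ∂μ =
      ∫ y : sphere (0 : EuclideanSpace ℝ (Fin d)) 1,
        ∑ j, coef p w Q (y : EuclideanSpace ℝ (Fin d)) j * ⟪w j, z⟫_ℝ ^ p ∂μ := by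
    apply integral_congr_ae
    filter_upwards [Measure.support_mem_ae (μ := μ)] with y hy
    exact h y hy
  rw [h1, integral_finsetSum]
  · apply Finset.sum_congr rfl
    intro j _
    rw [integral_mul_const]
  · intro j _
    exact (integrable_cont (continuous_coef hp w Q j) μ).mul_const _

/-- The power identity determines the value of the kernel when `m` is even. -/
lemma eq_abs_rpow {p a c : ℝ} {m n : ℕ} (hp : p * ((n + 1 : ℕ) : ℝ) = m) (hm : Even m)
    (hn : Odd (n + 1)) (h : a ^ (n + 1) = c ^ m) : a = |c| ^ p := by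
  have h1 : 0 ≤ a := by
    have : 0 ≤ a ^ (n + 1) := by rw [h]; exact hm.pow_nonneg c
    exact hn.pow_nonneg_iff.mp this
  have h2 : (|c| ^ p) ^ (n + 1) = a ^ (n + 1) := by
    rw [← Real.rpow_natCast, ← Real.rpow_mul (abs_nonneg _), hp, Real.rpow_natCast, h,
      hm.pow_abs]
  exact (pow_left_injective₀ h1 (Real.rpow_nonneg (abs_nonneg _) _) h2.symm)
  where pow_left_injective₀ {a b : ℝ} (ha : 0 ≤ a) (hb : 0 ≤ b) {k : ℕ}
      (h : a ^ (k + 1) = b ^ (k + 1)) : a = b :=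
    (pow_left_inj₀ ha hb (Nat.succ_ne_zero k)).mp h

/-- There is no infinite cluster for `p = m / (n + 1)` in `(2, 3)` with `m` even. -/
theorem no_cluster_even {p : ℝ} (hp2 : 2 < p) (hp3 : p < 3) {m n : ℕ}
    (hp : p * ((n + 1 : ℕ) : ℝ) = m) (hm : Even m) (hn : Odd (n + 1))
    {μ : Measure (sphere (0 : EuclideanSpace ℝ (Fin d)) 1)} [IsProbabilityMeasure μ]
    {I : ℝ} (hI : 0 < I) (hge : ∀ z : EuclideanSpace ℝ (Fin d), I * ‖z‖ ^ p ≤ pot p μ z)
    {K : Set (EuclideanSpace ℝ (Fin d))} (hK : K = Subtype.val '' μ.support)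
    (hKI : ∀ x ∈ K, pot p μ x = I)
    (hpsd : ∀ (s : Finset K) (c : K → ℝ), 0 ≤ ∑ x ∈ s, ∑ y ∈ s, c x * c y * ker p K x y)
    {B : Set K} (hBinf : B.Infinite) (hB : ∀ x ∈ B, ∀ y ∈ B,
      0 < ⟪(x : EuclideanSpace ℝ (Fin d)), (y : EuclideanSpace ℝ (Fin d))⟫_ℝ) : False := by
  have hp0 : 0 < p := by linarith
  have hm1 : 1 ≤ m := by
    rcases Nat.eq_zero_or_pos m with h | h
    · rw [h] at hp
      have : 0 < p * ((n + 1 : ℕ) : ℝ) := by positivity
      rw [hp] at this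
      simp at this
    · exact h
  have hK1 : ∀ x ∈ K, ‖x‖ = 1 := by
    intro x hx
    rw [hK] at hx
    obtain ⟨y, -, rfl⟩ := hx
    exact mem_sphere_zero_iff_norm.mp y.2
  have hKmem : ∀ y ∈ μ.support, (y : EuclideanSpace ℝ (Fin d)) ∈ K := by
    intro y hy
    rw [hK]
    exact ⟨y, hy, rfl⟩
  obtain ⟨N, v, hv, Q, hQ⟩ := exists_family hp hpsd hB
  set w : Fin N → EuclideanSpace ℝ (Fin d) := fun i => v i with hw
  obtain ⟨S, hSB, hS, hmax⟩ := exists_cluster (pt p w)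
    (B := (Subtype.val '' B : Set (EuclideanSpace ℝ (Fin d))))
    (hBinf.image Subtype.val_injective.injOn)
  have hSK : ∀ x ∈ S, ∃ y : K, y ∈ B ∧ (y : EuclideanSpace ℝ (Fin d)) = x := fun x hx => hSB hx
  have hSpos : ∀ x ∈ S, ∀ i, 0 < ⟪w i, x⟫_ℝ := by
    intro x hx i
    obtain ⟨y, hy, rfl⟩ := hSK x hx
    exact hB _ (hv i) _ hy
  have hSker : ∀ x ∈ S, ∀ y ∈ K, |⟪x, y⟫_ℝ| ^ p = ∑ j, coef p w Q y j * ⟪w j, x⟫_ℝ ^ p := by
    intro x hx y hy
    obtain ⟨x', hx', rfl⟩ := hSK x hx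
    exact ker_eq_sum hB hv hQ hx' ⟨y, hy⟩
  have hSI : ∀ x ∈ S, pot p μ x = I := by
    intro x hx
    obtain ⟨y, hy, rfl⟩ := hSK x hx
    exact hKI _ y.2
  have hS1 : ∀ x ∈ S, ‖x‖ = 1 := by
    intro x hx
    obtain ⟨y, hy, rfl⟩ := hSK x hx
    exact hK1 _ y.2
  obtain ⟨M, hM, k0, hk0⟩ := exists_tangent hp hm1 hS hSpos hmax
  have hc0 : ∃ c0 ∈ S, MvPolynomial.eval (pt p w c0) (M k0) ≠ 0 := by
    by_contra hcon
    push Not at hcon
    exact hk0 (mem_vIdeal.mpr hcon)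
  obtain ⟨c0, hc0S, hc0⟩ := hc0
  have hvf0 : vf p w M c0 ≠ 0 := by
    intro h
    apply hc0
    have := congrArg (fun z : EuclideanSpace ℝ (Fin d) => z k0) h
    exact this
  obtain ⟨γ, b, -, harc⟩ := exists_arc (I := vIdeal (pt p w) S) hM
    (fun F hF => mem_vIdeal.mp hF c0 hc0S) (hSpos c0 hc0S) hvf0
  have hb := harc.pos
  -- the arc is on the sphere
  have hγ1 : ∀ t ∈ Icc 0 b, ‖γ t‖ = 1 := by
    intro t ht
    have h1 : (∑ j : Fin d, X (Sum.inl j) ^ 2 - 1 : PR d N) ∈ vIdeal (pt p w) S := by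
      rw [mem_vIdeal]
      intro x hx
      have h2 := hS1 x hx
      rw [EuclideanSpace.norm_eq, Real.sqrt_eq_one] at h2
      simp only [map_sub, map_sum, map_pow, eval_X, map_one, pt, Sum.elim_inl]
      simp only [Real.norm_eq_abs, sq_abs] at h2
      rw [h2, sub_self]
    have h2 := harc.zero _ h1 t ht
    simp only [map_sub, map_sum, map_pow, eval_X, map_one, pt, Sum.elim_inl] at h2
    rw [EuclideanSpace.norm_eq, Real.sqrt_eq_one]
    simp only [Real.norm_eq_abs, sq_abs]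
    linarith
  -- the kernel on the arc
  have hγker : ∀ t ∈ Icc 0 b, ∀ y ∈ K,
      MvPolynomial.eval (pt p w (γ t)) (gP (coef p w Q y)) = |⟪γ t, y⟫_ℝ| ^ p := by
    intro t ht y hy
    apply eq_abs_rpow hp hm hn
    have h1 : (gP (coef p w Q y) ^ (n + 1) - linP y ^ m : PR d N) ∈ vIdeal (pt p w) S := by
      rw [mem_vIdeal]
      intro x hx
      rw [map_sub, map_pow, map_pow, eval_gP, eval_linP, ← hSker x hx y hy, ← Real.rpow_natCast,
        ← Real.rpow_mul (abs_nonneg _), hp, Real.rpow_natCast, hm.pow_abs, sub_self]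
    have h2 := harc.zero _ h1 t ht
    rw [map_sub, map_pow, map_pow, eval_linP] at h2
    linarith
  have hγI : ∀ t ∈ Icc 0 b, pot p μ (γ t) = I := by
    intro t ht
    set cb : Fin N → ℝ := fun j => ∫ y : sphere (0 : EuclideanSpace ℝ (Fin d)) 1,
      coef p w Q (y : EuclideanSpace ℝ (Fin d)) j ∂μ with hcb
    have h1 : (gP cb - C I : PR d N) ∈ vIdeal (pt p w) S := by
      rw [mem_vIdeal]
      intro x hx
      rw [map_sub, eval_C, eval_gP, sub_eq_zero, ← hSI x hx]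
      rw [pot_eq_sum hp0 (w := w) (Q := Q) (fun y hy => hSker x hx _ (hKmem y hy))]
    have h2 := harc.zero _ h1 t ht
    rw [map_sub, eval_C, eval_gP, sub_eq_zero] at h2
    rw [pot_eq_sum hp0 (w := w) (Q := Q) (fun y hy => ?_)]
    · exact h2
    · have h3 := hγker t ht _ (hKmem y hy)
      rw [eval_gP] at h3
      exact h3.symm
  -- the second derivative of the arc
  set A : ℝ → EuclideanSpace ℝ (Fin d) := fun t =>
    WithLp.toLp 2 fun k => MvPolynomial.eval (pt p w (γ t)) (XM p w M (M k)) with hA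
  have hAd : ∀ t ∈ Icc 0 b, HasDerivAt (fun s => vf p w M (γ s)) (A t) t := by
    intro t ht
    have h1 : HasDerivAt (fun s => fun k => MvPolynomial.eval (pt p w (γ s)) (M k))
        (fun k => MvPolynomial.eval (pt p w (γ t)) (XM p w M (M k))) t := by
      rw [hasDerivAt_pi]
      intro k
      exact harc.hasDerivAt (M k) ht
    exact (PiLp.continuousLinearEquiv 2 ℝ (fun _ : Fin d => ℝ)).symm.hasFDerivAt.comp_hasDerivAt
      t h1
  have hAc : ContinuousOn A (Icc 0 b) := by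
    rw [continuousOn_iff_continuous_domRestrict]
    have : ∀ k, Continuous fun t : Icc 0 b =>
        MvPolynomial.eval (pt p w (γ t)) (XM p w M (M k)) := by
      intro k
      exact (continuousOn_iff_continuous_domRestrict.mp (harc.continuousOn (XM p w M (M k))))
    exact (PiLp.continuous_toLp 2 _).comp (continuous_pi this)
  obtain ⟨M0, hM0⟩ := isCompact_Icc.exists_bound_of_continuousOn hAc
  set M1 : ℝ := |M0| + 1 with hM1
  have hM1p : 0 < M1 := by positivity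
  have hM1b : ∀ t ∈ Icc 0 b, ‖A t‖ ≤ M1 := fun t ht => (hM0 t ht).trans (by
    have := le_abs_self M0
    linarith)
  have hψd : ∀ (y : EuclideanSpace ℝ (Fin d)), ∀ t ∈ Icc 0 b,
      HasDerivAt (fun s => ⟪γ s, y⟫_ℝ) ⟪vf p w M (γ t), y⟫_ℝ t := by
    intro y t ht
    have h := hasDerivAt_inner_left (harc.deriv t ht) y
    have e : (fun s => ⟪γ s, y⟫_ℝ) = fun s => ⟪y, γ s⟫_ℝ := by
      funext s; rw [real_inner_comm]
    rw [e, real_inner_comm]
    exact h
  have hψ1d : ∀ (y : EuclideanSpace ℝ (Fin d)), ∀ t ∈ Icc 0 b,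
      HasDerivAt (fun s => ⟪vf p w M (γ s), y⟫_ℝ) ⟪A t, y⟫_ℝ t := by
    intro y t ht
    have h := hasDerivAt_inner_left (hAd t ht) y
    have e : (fun s => ⟪vf p w M (γ s), y⟫_ℝ) = fun s => ⟪y, vf p w M (γ s)⟫_ℝ := by
      funext s; rw [real_inner_comm]
    rw [e, real_inner_comm]
    exact h
  -- tangency
  have htan : ∀ y ∈ K, ∀ t1 ∈ Ioo 0 b, ⟪γ t1, y⟫_ℝ = 0 → ⟪vf p w M (γ t1), y⟫_ℝ = 0 := by
    intro y hy t1 ht1 h0
    set G : PR d N := gP (coef p w Q y) with hG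
    exact tangency hp2 hp3 (b := b) (ψ := fun s => ⟪γ s, y⟫_ℝ)
      (ψ1 := fun s => ⟪vf p w M (γ s), y⟫_ℝ) (ψ2 := fun s => ⟪A s, y⟫_ℝ)
      (f := fun s => MvPolynomial.eval (pt p w (γ s)) G)
      (f1 := fun s => MvPolynomial.eval (pt p w (γ s)) (XM p w M G))
      (f2 := fun s => MvPolynomial.eval (pt p w (γ s)) (XM p w M (XM p w M G)))
      (f3 := fun s => MvPolynomial.eval (pt p w (γ s)) (XM p w M (XM p w M (XM p w M G))))
      (fun t ht => hψd y t (Ioo_subset_Icc_self ht))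
      (fun t ht => hψ1d y t (Ioo_subset_Icc_self ht))
      (fun t ht => hγker t (Ioo_subset_Icc_self ht) y hy)
      (fun t ht => harc.hasDerivAt _ (Ioo_subset_Icc_self ht))
      (fun t ht => harc.hasDerivAt _ (Ioo_subset_Icc_self ht))
      (fun t ht => harc.hasDerivAt _ (Ioo_subset_Icc_self ht)) ht1 h0
  -- the base point
  set t0 : ℝ := b / 2 with ht0
  have ht0m : t0 ∈ Icc 0 b := ⟨by linarith, by linarith⟩
  have hspeed := harc.ne t0 ht0m
  set c2 : ℝ := ‖vf p w M (γ t0)‖ / 2 with hc2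
  have hc2p : 0 < c2 := by
    have := norm_pos_iff.mpr hspeed
    positivity
  have hfar : ∀ᶠ t in 𝓝[>] t0, c2 * (t - t0) ≤ ‖γ t - γ t0‖ := by
    have h1 := (hasDerivAt_iff_tendsto_slope.mp (harc.deriv t0 ht0m)).norm
    have h2 : ∀ᶠ t in 𝓝[≠] t0, c2 < ‖slope γ t0 t‖ := h1.eventually (lt_mem_nhds (by
      rw [hc2]
      have := norm_pos_iff.mpr hspeed
      linarith))
    have h3 : ∀ᶠ t in 𝓝[>] t0, c2 < ‖slope γ t0 t‖ :=
      h2.filter_mono (nhdsWithin_mono _ fun t ht => ne_of_gt ht)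
    filter_upwards [h3, self_mem_nhdsWithin] with t h4 h5
    have h6 : 0 < t - t0 := sub_pos.mpr h5
    rw [slope_def_module, norm_smul, norm_inv, Real.norm_eq_abs, abs_of_pos h6,
      inv_mul_eq_div, lt_div_iff₀ h6] at h4
    exact h4.le
  have hclose : ∀ᶠ t in 𝓝[>] t0, ‖γ t - γ t0‖ < 1 := by
    have h1 : ContinuousAt (fun t => ‖γ t - γ t0‖) t0 := by
      have := (harc.deriv t0 ht0m).continuousAt
      fun_prop
    have h2 : ∀ᶠ t in 𝓝 t0, ‖γ t - γ t0‖ < 1 := by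
      apply h1.eventually (gt_mem_nhds _)
      simp
    exact h2.filter_mono nhdsWithin_le_nhds
  obtain ⟨δ2, hδ2, hloc⟩ := mem_nhdsGT_iff_exists_Ioo_subset.mp (hfar.and hclose)
  set δ := min (δ2 - t0) (b - t0) with hδ
  have hδ0 : 0 < δ := lt_min (sub_pos.mpr hδ2) (by rw [ht0]; linarith)
  set r : ℝ := p / 2 with hr
  have hr1 : 1 < r := by rw [hr]; linarith
  have hr2 : r < 2 := by rw [hr]; linarith
  apply not_small (a := I * (r * (r - 1) / 2 * (c2 ^ 2 / 4) ^ 2))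
    (C := (1 + p / 2) * M1 ^ p) (q := 2 * p - 4) (δ := δ)
    (by
      have : 0 < r - 1 := by linarith
      have : 0 < r := by linarith
      positivity) (by linarith) hδ0
  intro τ hτ0 hτδ
  have hτ1 : τ < δ2 - t0 := hτδ.trans_le (min_le_left _ _)
  have hτ2 : τ < b - t0 := hτδ.trans_le (min_le_right _ _)
  have ht0τ : t0 + τ ∈ Icc 0 b := ⟨by linarith [ht0m.1], by linarith⟩
  obtain ⟨hl1, hl2⟩ := hloc (a := t0 + τ) ⟨by linarith, by linarith⟩
  have hl1' : c2 * τ ≤ ‖γ (t0 + τ) - γ t0‖ := by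
    have : c2 * (t0 + τ - t0) ≤ ‖γ (t0 + τ) - γ t0‖ := hl1
    rwa [add_sub_cancel_left] at this
  have hl2' : ‖γ (t0 + τ) - γ t0‖ < 1 := hl2
  set x := γ t0 with hx
  set x' := γ (t0 + τ) with hx'
  have hx1 : ‖x‖ = 1 := hγ1 t0 ht0m
  have hx1' : ‖x'‖ = 1 := hγ1 _ ht0τ
  have hint := integral_Psi hp2 hge hx1 (hγI t0 ht0m) hx1' (hγI _ ht0τ)
  set ρ : ℝ := M1 * τ ^ 2 with hρ
  have hρ0 : 0 ≤ ρ := by positivity
  -- upper bound
  have hupper : ∫ y : sphere (0 : EuclideanSpace ℝ (Fin d)) 1,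
      Psi p ⟪x, (y : EuclideanSpace ℝ (Fin d))⟫_ℝ ⟪x', (y : EuclideanSpace ℝ (Fin d))⟫_ℝ ∂μ ≤
      (1 + p / 2) * ρ ^ p := by
    have h1 : ∀ y ∈ μ.support,
        Psi p ⟪x, (y : EuclideanSpace ℝ (Fin d))⟫_ℝ ⟪x', (y : EuclideanSpace ℝ (Fin d))⟫_ℝ ≤
        (1 + p / 2) * ρ ^ p := by
      intro y hy
      rcases le_or_gt 0 (⟪x, (y : EuclideanSpace ℝ (Fin d))⟫_ℝ *
        ⟪x', (y : EuclideanSpace ℝ (Fin d))⟫_ℝ) with hs | hs
      · refine (Psi_nonpos hp2.le hp3.le hs).trans ?_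
        have : 0 ≤ ρ ^ p := Real.rpow_nonneg hρ0 _
        positivity
      · -- a zero between
        have hyK := hKmem y hy
        have hy1 : ‖(y : EuclideanSpace ℝ (Fin d))‖ = 1 := hK1 _ hyK
        have hcontψ : ContinuousOn (fun s => ⟪γ s, (y : EuclideanSpace ℝ (Fin d))⟫_ℝ)
            (Icc t0 (t0 + τ)) := by
          intro s hs
          exact (hψd y s ⟨by linarith [hs.1, ht0m.1], by linarith [hs.2, ht0τ.2]⟩).continuousAt.continuousWithinAt
        have hzero : ∃ t1 ∈ Ioo t0 (t0 + τ), ⟪γ t1, (y : EuclideanSpace ℝ (Fin d))⟫_ℝ = 0 := by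
          rcases mul_neg_iff.mp hs with ⟨h1, h2⟩ | ⟨h1, h2⟩
          · have := intermediate_value_Ioo' (by linarith : t0 ≤ t0 + τ) hcontψ ⟨h2, h1⟩
            exact this
          · have := intermediate_value_Ioo (by linarith : t0 ≤ t0 + τ) hcontψ ⟨h1, h2⟩
            exact this
        obtain ⟨t1, ht1, hz⟩ := hzero
        have ht1m : t1 ∈ Ioo 0 b := ⟨by linarith [ht1.1, ht0m.1], by linarith [ht1.2, ht0τ.2]⟩
        have hz1 := htan y hyK t1 ht1m hz
        set s : Set ℝ := Icc t0 (t0 + τ) with hs'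
        have hsub : ∀ t ∈ s, t ∈ Icc 0 b := fun t ht =>
          ⟨by linarith [ht.1, ht0m.1], by linarith [ht.2, ht0τ.2]⟩
        have ht1s : t1 ∈ s := ⟨ht1.1.le, ht1.2.le⟩
        have hdist : ∀ t ∈ s, ‖t - t1‖ ≤ τ := by
          intro t ht
          rw [Real.norm_eq_abs, abs_le]
          constructor
          · linarith [ht.1, ht1s.2]
          · linarith [ht.2, ht1s.1]
        have hψ1b : ∀ t ∈ s, ‖⟪vf p w M (γ t), (y : EuclideanSpace ℝ (Fin d))⟫_ℝ‖ ≤ M1 * τ := by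
          intro t ht
          have h1 := Convex.norm_image_sub_le_of_norm_hasDerivWithin_le (s := s)
            (f := fun s => ⟪vf p w M (γ s), (y : EuclideanSpace ℝ (Fin d))⟫_ℝ)
            (f' := fun s => ⟪A s, (y : EuclideanSpace ℝ (Fin d))⟫_ℝ) (C := M1)
            (fun t ht => (hψ1d y t (hsub t ht)).hasDerivWithinAt)
            (fun t ht => by
              have := norm_inner_le_norm (𝕜 := ℝ) (A t) (y : EuclideanSpace ℝ (Fin d))
              rw [hy1, mul_one] at this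
              exact this.trans (hM1b t (hsub t ht)))
            (convex_Icc _ _) ht1s ht
          rw [hz1, sub_zero] at h1
          exact h1.trans (mul_le_mul_of_nonneg_left (hdist t ht) hM1p.le)
        have hψb : ∀ t ∈ s, ‖⟪γ t, (y : EuclideanSpace ℝ (Fin d))⟫_ℝ‖ ≤ ρ := by
          intro t ht
          have h1 := Convex.norm_image_sub_le_of_norm_hasDerivWithin_le (s := s)
            (f := fun s => ⟪γ s, (y : EuclideanSpace ℝ (Fin d))⟫_ℝ)
            (f' := fun s => ⟪vf p w M (γ s), (y : EuclideanSpace ℝ (Fin d))⟫_ℝ) (C := M1 * τ)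
            (fun t ht => (hψd y t (hsub t ht)).hasDerivWithinAt) hψ1b
            (convex_Icc _ _) ht1s ht
          rw [hz, sub_zero] at h1
          refine h1.trans ((mul_le_mul_of_nonneg_left (hdist t ht) (by positivity)).trans ?_)
          rw [hρ]
          linarith [sq τ]
        exact Psi_le hp2 (hψb t0 ⟨le_refl _, by linarith⟩) (hψb (t0 + τ) ⟨by linarith, le_refl _⟩)
    have h2 := integral_mono_ae (μ := μ) (integrable_cont (continuous_Psi hp2 x x') μ)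
      (integrable_const ((1 + p / 2) * ρ ^ p)) (by
        filter_upwards [Measure.support_mem_ae (μ := μ)] with y hy
        exact h1 y hy)
    simpa using h2
  -- lower bound
  set u : ℝ := (1 - ⟪x, x'⟫_ℝ) / 2 with hu
  have hnorm : ‖x' - x‖ ^ 2 = 4 * u := by
    rw [norm_sub_sq_real, hx1, hx1', hu, real_inner_comm]
    ring
  have hu0 : 0 ≤ u := by nlinarith [sq_nonneg ‖x' - x‖]
  have hu1 : u < 1 := by nlinarith [norm_nonneg (x' - x)]
  have hmid := hge ((1 / 2 : ℝ) • (x + x'))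
  rw [norm_mid_rpow hx1 hx1', ← hu, ← hr] at hmid
  have htl := taylor_lower hr1.le hr2.le hu0 hu1
  rw [hint] at hupper
  have hc : p / 4 * (I * (1 - ⟪x, x'⟫_ℝ)) = I * (r * u) := by rw [hr, hu]; ring
  rw [hc] at hupper
  have hmain : I * (r * (r - 1) / 2 * u ^ 2) ≤ (1 + p / 2) * ρ ^ p := by
    have h1 : I * (1 - r * u + r * (r - 1) / 2 * u ^ 2) ≤ I * (1 - u) ^ r :=
      mul_le_mul_of_nonneg_left htl hI.le
    linarith
  have hulow : c2 ^ 2 / 4 * τ ^ 2 ≤ u := by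
    have h1 : (c2 * τ) ^ 2 ≤ ‖x' - x‖ ^ 2 := by
      apply pow_le_pow_left₀ (by positivity) hl1'
    rw [hnorm] at h1
    nlinarith
  have hu2 : (c2 ^ 2 / 4 * τ ^ 2) ^ 2 ≤ u ^ 2 := pow_le_pow_left₀ (by positivity) hulow 2
  have hρp : ρ ^ p = M1 ^ p * (τ ^ (4 : ℕ) * τ ^ (2 * p - 4)) := by
    rw [hρ, Real.mul_rpow hM1p.le (by positivity)]
    congr 1
    rw [← Real.rpow_natCast τ 2, ← Real.rpow_mul hτ0.le, ← Real.rpow_natCast τ 4,
      ← Real.rpow_add hτ0]
    congr 1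
    push_cast
    ring
  have hrr : 0 < r * (r - 1) / 2 := by
    have : 0 < r - 1 := by linarith
    have : 0 < r := by linarith
    positivity
  have hfin : τ ^ 4 * (I * (r * (r - 1) / 2 * (c2 ^ 2 / 4) ^ 2)) ≤
      τ ^ 4 * ((1 + p / 2) * M1 ^ p * τ ^ (2 * p - 4)) := by
    calc τ ^ 4 * (I * (r * (r - 1) / 2 * (c2 ^ 2 / 4) ^ 2)) =
        I * (r * (r - 1) / 2 * (c2 ^ 2 / 4 * τ ^ 2) ^ 2) := by ring
      _ ≤ I * (r * (r - 1) / 2 * u ^ 2) := by gcongr
      _ ≤ (1 + p / 2) * ρ ^ p := hmain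
      _ = _ := by rw [hρp]; ring
  exact le_of_mul_le_mul_left hfin (by positivity)

end Pool.Agent.Lib.MP_3f9d7d_an.H30
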