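import Pool.Agent.Lib.MP_3f9d7d_an.H30.Sign

open Set MvPolynomial
open scoped InnerProductSpace

namespace Pool.Agent.Lib.MP_3f9d7d_an.H30

variable {d N : ℕ}

/-- The polynomial ring in the coordinates, the powers `⟪w i, z⟫ ^ p` and the inverses
`⟪w i, z⟫⁻¹`. -/
abbrev PR (d N : ℕ) := MvPolynomial (Fin d ⊕ (Fin N ⊕ Fin N)) ℝ

/-- The partial derivatives on the polynomial ring. -/
noncomputable def dP (p : ℝ) (w : Fin N → EuclideanSpace ℝ (Fin d)) (k : Fin d) :
    Derivation ℝ (PR d N) (PR d N) :=
  mkDerivation ℝ (Sum.elim (fun j => if j = k then 1 else 0)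
    (Sum.elim (fun i => C (p * w i k) * X (Sum.inr (Sum.inl i)) * X (Sum.inr (Sum.inr i)))
      (fun i => -(C (w i k) * X (Sum.inr (Sum.inr i)) ^ 2))))

lemma dP_X (p : ℝ) (w : Fin N → EuclideanSpace ℝ (Fin d)) (k j : Fin d) :
    dP p w k (X (Sum.inl j)) = if j = k then 1 else 0 := by
  simp [dP, mkDerivation_X]

lemma dP_Y (p : ℝ) (w : Fin N → EuclideanSpace ℝ (Fin d)) (k : Fin d) (i : Fin N) :
    dP p w k (X (Sum.inr (Sum.inl i))) =
      C (p * w i k) * X (Sum.inr (Sum.inl i)) * X (Sum.inr (Sum.inr i)) := by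
  simp [dP, mkDerivation_X]

lemma dP_Z (p : ℝ) (w : Fin N → EuclideanSpace ℝ (Fin d)) (k : Fin d) (i : Fin N) :
    dP p w k (X (Sum.inr (Sum.inr i))) = -(C (w i k) * X (Sum.inr (Sum.inr i)) ^ 2) := by
  simp [dP, mkDerivation_X]

lemma vIdeal_isPrime {σ A : Type*} {pt : A → σ → ℝ} {C : Set A} (hC : C.Infinite)
    (hmax : ∀ (P : MvPolynomial σ ℝ) (C' : Set A), C' ⊆ C → C'.Infinite →
      (∀ x ∈ C', MvPolynomial.eval (pt x) P = 0) → ∀ x ∈ C, MvPolynomial.eval (pt x) P = 0) :
    (vIdeal pt C).IsPrime := by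
  constructor
  · intro h
    obtain ⟨x, hx⟩ := hC.nonempty
    have h1 : (1 : MvPolynomial σ ℝ) ∈ vIdeal pt C := by rw [h]; trivial
    have h2 := mem_vIdeal.mp h1 x hx
    simp at h2
  · intro f g hfg
    set C1 : Set A := C ∩ {x | MvPolynomial.eval (pt x) f = 0} with hC1
    set C2 : Set A := C ∩ {x | MvPolynomial.eval (pt x) g = 0} with hC2
    have hun : C ⊆ C1 ∪ C2 := by
      intro x hx
      have h := mem_vIdeal.mp hfg x hx
      rw [map_mul, mul_eq_zero] at h
      rcases h with h | h
      · exact Or.inl ⟨hx, h⟩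
      · exact Or.inr ⟨hx, h⟩
    rcases infinite_union.mp (hC.mono hun) with h | h
    · left
      exact mem_vIdeal.mpr (hmax f C1 inter_subset_left h fun x hx => hx.2)
    · right
      exact mem_vIdeal.mpr (hmax g C2 inter_subset_left h fun x hx => hx.2)

/-- There is a nonzero tangent vector field to the cluster with polynomial coefficients. -/
theorem exists_tangent {p : ℝ} {m n : ℕ} (hp : p * ((n + 1 : ℕ) : ℝ) = m) (hm : 1 ≤ m)
    {w : Fin N → EuclideanSpace ℝ (Fin d)} {S : Set (EuclideanSpace ℝ (Fin d))}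
    (hS : S.Infinite) (hpos : ∀ x ∈ S, ∀ i, 0 < ⟪w i, x⟫_ℝ)
    (hmax : ∀ (P : PR d N) (S' : Set (EuclideanSpace ℝ (Fin d))), S' ⊆ S → S'.Infinite →
      (∀ x ∈ S', MvPolynomial.eval (pt p w x) P = 0) →
        ∀ x ∈ S, MvPolynomial.eval (pt p w x) P = 0) :
    ∃ M : Fin d → PR d N, (∀ F ∈ vIdeal (pt p w) S, ∑ k, M k * dP p w k F ∈ vIdeal (pt p w) S) ∧
      ∃ k, M k ∉ vIdeal (pt p w) S := by
  classical
  set I : Ideal (PR d N) := vIdeal (pt p w) S with hI
  have hprime : I.IsPrime := vIdeal_isPrime hS hmax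
  set L := FractionRing (PR d N ⧸ I) with hL
  set φ : PR d N →+* L := (algebraMap (PR d N ⧸ I) L).comp (Ideal.Quotient.mk I) with hφ
  have hchar : CharZero L := charZero_of_injective_algebraMap (algebraMap ℝ L).injective
  have hφ0 : ∀ F, φ F = 0 ↔ F ∈ I := by
    intro F
    rw [hφ, RingHom.comp_apply, FaithfulSMul.algebraMap_eq_zero_iff, Ideal.Quotient.eq_zero_iff_mem]
  have hφC : ∀ a : ℝ, φ (C a) = algebraMap ℝ L a := by
    intro a
    rw [hφ, RingHom.comp_apply, IsScalarTower.algebraMap_apply ℝ (PR d N ⧸ I) L]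
    rfl
  -- the span of the gradients
  set W : Submodule L (Fin d → L) :=
    Submodule.span L ((fun F : PR d N => fun k => φ (dP p w k F)) '' (I : Set (PR d N))) with hW
  by_cases htop : W = ⊤
  · exfalso
    set D := KaehlerDifferential.D ℝ L with hD
    -- linear forms
    set ℓ : Fin N → PR d N := fun i => linP (w i) with hℓ
    have hDℓ : ∀ i, D (φ (ℓ i)) = ∑ k, φ (C (w i k)) • D (φ (X (Sum.inl k))) := by
      intro i
      rw [hℓ]
      simp only [linP]
      rw [map_sum, map_sum]
      apply Finset.sum_congr rfl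
      intro k _
      rw [map_mul, Derivation.leibniz, hφC, Derivation.map_algebraMap, smul_zero, add_zero]
    have hZ1 : ∀ i, φ (X (Sum.inr (Sum.inr i))) * φ (ℓ i) = 1 := by
      intro i
      rw [← map_mul, ← sub_eq_zero, ← map_one φ, ← map_sub, hφ0, hI, mem_vIdeal]
      intro x hx
      rw [map_sub, map_mul, map_one, hℓ, eval_linP, eval_X]
      have h1 : (⟪w i, x⟫_ℝ) ≠ 0 := (hpos x hx i).ne'
      simp only [pt, Sum.elim_inr]
      rw [real_inner_comm (w i) x, inv_mul_cancel₀ h1, sub_self]
    have hZ0 : ∀ i, φ (X (Sum.inr (Sum.inr i))) ≠ 0 := fun i h => by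
      have := hZ1 i
      rw [h, zero_mul] at this
      exact zero_ne_one this
    have hl0 : ∀ i, φ (ℓ i) ≠ 0 := fun i h => by
      have := hZ1 i
      rw [h, mul_zero] at this
      exact zero_ne_one this
    have hY1 : ∀ i, φ (X (Sum.inr (Sum.inl i))) ^ (n + 1) = φ (ℓ i) ^ m := by
      intro i
      rw [← map_pow, ← map_pow, ← sub_eq_zero, ← map_sub, hφ0, hI, mem_vIdeal]
      intro x hx
      rw [map_sub, map_pow, map_pow, hℓ, eval_linP, eval_X]
      simp only [pt, Sum.elim_inr, Sum.elim_inl]
      rw [real_inner_comm (w i) x, ← Real.rpow_natCast, ← Real.rpow_mul (hpos x hx i).le, hp,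
        Real.rpow_natCast, sub_self]
    have hY0 : ∀ i, φ (X (Sum.inr (Sum.inl i))) ≠ 0 := fun i h => by
      have := hY1 i
      rw [h, zero_pow (by omega)] at this
      exact pow_ne_zero m (hl0 i) this.symm
    have hDZ : ∀ i, D (φ (X (Sum.inr (Sum.inr i)))) =
        -(φ (X (Sum.inr (Sum.inr i))) ^ 2) • D (φ (ℓ i)) := by
      intro i
      have h1 := congrArg D (hZ1 i)
      rw [Derivation.leibniz, Derivation.map_one_eq_zero] at h1
      have h2 := congrArg (fun a => φ (X (Sum.inr (Sum.inr i))) • a) h1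
      simp only [smul_add, smul_smul, smul_zero] at h2
      rw [hZ1 i, one_smul] at h2
      rw [neg_smul, sq]
      exact eq_neg_of_add_eq_zero_right h2
    have hDY : ∀ i, D (φ (X (Sum.inr (Sum.inl i)))) =
        (algebraMap ℝ L p * φ (X (Sum.inr (Sum.inl i))) * φ (X (Sum.inr (Sum.inr i)))) •
          D (φ (ℓ i)) := by
      intro i
      set y := φ (X (Sum.inr (Sum.inl i))) with hy
      set z := φ (X (Sum.inr (Sum.inr i))) with hz
      set l := φ (ℓ i) with hl
      have h1 := congrArg D (hY1 i)
      rw [Derivation.leibniz_pow, Derivation.leibniz_pow] at h1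
      simp only [Nat.add_sub_cancel] at h1
      -- (n+1) y^n Dy = m l^(m-1) Dl
      have h2 : ((n + 1 : ℕ) : L) * y ^ n ≠ 0 := by
        apply mul_ne_zero _ (pow_ne_zero _ (hY0 i))
        exact Nat.cast_ne_zero.mpr (Nat.succ_ne_zero n)
      have h3 : (((n + 1 : ℕ) : L) * y ^ n) • D y = ((m : L) * l ^ (m - 1)) • D l := by
        rw [mul_smul, mul_smul, Nat.cast_smul_eq_nsmul, Nat.cast_smul_eq_nsmul]
        exact h1
      have h4 : (((n + 1 : ℕ) : L) * y ^ n) • ((algebraMap ℝ L p * y * z) • D l) =
          ((m : L) * l ^ (m - 1)) • D l := by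
        rw [smul_smul]
        congr 1
        have h5 : ((n + 1 : ℕ) : L) * algebraMap ℝ L p = (m : L) := by
          have := congrArg (algebraMap ℝ L) hp
          rw [map_mul, map_natCast, map_natCast] at this
          rw [mul_comm]
          exact this
        have h6 : y ^ (n + 1) = l ^ m := hY1 i
        have h7 : l ^ m * z = l ^ (m - 1) := by
          have h8 : l ^ m = l ^ (m - 1) * l := by
            rw [← pow_succ]
            congr 1
            omega
          have h9 : z * l = 1 := hZ1 i
          rw [h8, mul_assoc, mul_comm l z, h9, mul_one]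
        calc ((n + 1 : ℕ) : L) * y ^ n * (algebraMap ℝ L p * y * z) =
            (((n + 1 : ℕ) : L) * algebraMap ℝ L p) * (y ^ (n + 1) * z) := by ring
          _ = (m : L) * l ^ (m - 1) := by rw [h5, h6, h7]
      have h5 : (((n + 1 : ℕ) : L) * y ^ n) • (D y - (algebraMap ℝ L p * y * z) • D l) = 0 := by
        rw [smul_sub, h3, h4, sub_self]
      rcases smul_eq_zero.mp h5 with h | h
      · exact absurd h h2
      · exact sub_eq_zero.mp h
    have hgen : ∀ s, D (φ (X s)) = ∑ k, φ (dP p w k (X s)) • D (φ (X (Sum.inl k))) := by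
      intro s
      rcases s with j | i | i
      · simp only [dP_X]
        rw [Finset.sum_eq_single j]
        · simp
        · intro k _ hk
          rw [if_neg (Ne.symm hk), map_zero, zero_smul]
        · intro h
          exact absurd (Finset.mem_univ _) h
      · rw [hDY, hDℓ, Finset.smul_sum]
        apply Finset.sum_congr rfl
        intro k _
        rw [dP_Y, smul_smul, map_mul, map_mul, C_mul, map_mul, hφC, hφC]
        congr 1
        ring
      · rw [hDZ, hDℓ, Finset.smul_sum]
        apply Finset.sum_congr rfl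
        intro k _
        rw [dP_Z, smul_smul, map_neg, map_mul, map_pow]
        congr 1
        ring
    have hall : ∀ P : PR d N, D (φ P) = ∑ k, φ (dP p w k P) • D (φ (X (Sum.inl k))) := by
      intro P
      induction P using MvPolynomial.induction_on with
      | C a =>
        rw [hφC, Derivation.map_algebraMap]
        symm
        apply Finset.sum_eq_zero
        intro k _
        rw [← MvPolynomial.algebraMap_eq, Derivation.map_algebraMap, map_zero, zero_smul]
      | add P Q hP hQ =>
        rw [map_add, map_add, hP, hQ, ← Finset.sum_add_distrib]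
        apply Finset.sum_congr rfl
        intro k _
        rw [map_add, map_add, add_smul]
      | mul_X P s hP =>
        rw [map_mul, Derivation.leibniz, hP, hgen s, Finset.smul_sum, Finset.smul_sum,
          ← Finset.sum_add_distrib]
        apply Finset.sum_congr rfl
        intro k _
        rw [Derivation.leibniz, map_add, smul_eq_mul, smul_eq_mul, map_mul, map_mul, add_smul,
          mul_smul, mul_smul]
    -- the map killing everything
    set Tm : (Fin d → L) →ₗ[L] Ω[L⁄ℝ] :=
      { toFun := fun a => ∑ k, a k • D (φ (X (Sum.inl k)))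
        map_add' := by
          intro a b
          simp only [Pi.add_apply, add_smul, Finset.sum_add_distrib]
        map_smul' := by
          intro c a
          simp only [Pi.smul_apply, smul_eq_mul, mul_smul, Finset.smul_sum, RingHom.id_apply] }
      with hTm
    have hTW : W ≤ LinearMap.ker Tm := by
      rw [hW, Submodule.span_le]
      rintro _ ⟨F, hF, rfl⟩
      rw [SetLike.mem_coe, LinearMap.mem_ker]
      have h1 := hall F
      rw [(hφ0 F).mpr hF, map_zero] at h1
      exact h1.symm
    have hX : ∀ j, D (φ (X (Sum.inl j))) = 0 := by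
      intro j
      have h1 : (Pi.single j 1 : Fin d → L) ∈ LinearMap.ker Tm := hTW (by rw [htop]; trivial)
      rw [LinearMap.mem_ker] at h1
      have h2 : Tm (Pi.single j 1) = D (φ (X (Sum.inl j))) := by
        rw [hTm]
        simp only [LinearMap.coe_mk, AddHom.coe_mk]
        rw [Finset.sum_eq_single j]
        · simp
        · intro k _ hk
          rw [Pi.single_eq_of_ne hk, zero_smul]
        · intro h
          exact absurd (Finset.mem_univ _) h
      rw [h2] at h1
      exact h1
    have hDP : ∀ P : PR d N, D (φ P) = 0 := by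
      intro P
      rw [hall P]
      apply Finset.sum_eq_zero
      intro k _
      rw [hX k, smul_zero]
    have hDL : ∀ a : L, D a = 0 := by
      intro a
      obtain ⟨x, y, hy, rfl⟩ := IsFractionRing.div_surjective (A := PR d N ⧸ I) a
      obtain ⟨P, rfl⟩ := Ideal.Quotient.mk_surjective x
      obtain ⟨R, rfl⟩ := Ideal.Quotient.mk_surjective y
      have e1 : D (algebraMap (PR d N ⧸ I) L (Ideal.Quotient.mk I P)) = 0 := hDP P
      have e2 : D (algebraMap (PR d N ⧸ I) L (Ideal.Quotient.mk I R)) = 0 := hDP R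
      rw [div_eq_mul_inv, Derivation.leibniz, Derivation.leibniz_inv, e1, e2]
      simp
    have hsub : Subsingleton (Ω[L⁄ℝ]) := by
      have h1 := KaehlerDifferential.span_range_derivation ℝ L
      have h2 : Set.range (KaehlerDifferential.D ℝ L) ⊆ {0} := by
        rintro _ ⟨a, rfl⟩
        exact hDL a
      have h3 : (⊤ : Submodule L (Ω[L⁄ℝ])) ≤ ⊥ := by
        rw [← h1, Submodule.span_le]
        exact h2
      refine ⟨fun a b => ?_⟩
      have ha := h3 (Submodule.mem_top (x := a))
      have hb := h3 (Submodule.mem_top (x := b))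
      rw [Submodule.mem_bot] at ha hb
      rw [ha, hb]
    have hunr : Algebra.FormallyUnramified ℝ L := ⟨hsub⟩
    have hsep := (Algebra.FormallyUnramified.iff_isSeparable (K := ℝ) L).mp hunr
    have halg : ∀ j : Fin d, ∃ q : Polynomial ℝ, q ≠ 0 ∧
        Polynomial.aeval (φ (X (Sum.inl j))) q = 0 := by
      intro j
      have h1 : IsIntegral ℝ (φ (X (Sum.inl j))) := Algebra.IsSeparable.isIntegral ℝ _
      exact ⟨minpoly ℝ (φ (X (Sum.inl j))), minpoly.ne_zero h1, minpoly.aeval ℝ _⟩
    choose q hq0 hq using halg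
    have hroot : ∀ x ∈ S, ∀ j : Fin d, (q j).eval (x j) = 0 := by
      intro x hx j
      have h1 : φ (Polynomial.aeval (X (Sum.inl j) : PR d N) (q j)) = 0 := by
        rw [← hq j]
        rw [Polynomial.aeval_def, Polynomial.aeval_def, Polynomial.hom_eval₂]
        congr 1
      rw [hφ0, hI, mem_vIdeal] at h1
      have h2 := h1 x hx
      rw [Polynomial.aeval_def, Polynomial.hom_eval₂, eval_X] at h2
      have h3 : (MvPolynomial.eval (pt p w x)).comp (algebraMap ℝ (PR d N)) = RingHom.id ℝ := by
        ext a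
        simp [MvPolynomial.algebraMap_eq]
      rw [h3] at h2
      simpa [pt] using h2
    have hfin : S.Finite := by
      have h1 : (Set.pi Set.univ fun j : Fin d => ((q j).roots.toFinset : Set ℝ)).Finite :=
        Set.Finite.pi fun j => Finset.finite_toSet _
      refine Set.Finite.of_finite_image (f := fun x : EuclideanSpace ℝ (Fin d) => fun j => x j)
        (h1.subset ?_) ?_
      · rintro _ ⟨x, hx, rfl⟩ j _
        simp only [Finset.mem_coe, Multiset.mem_toFinset]
        exact (Polynomial.mem_roots (hq0 j)).mpr (hroot x hx j)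
      · intro x _ y _ hxy
        ext j
        exact congrFun hxy j
    exact hS hfin
  · obtain ⟨f, hf0, hfW⟩ := Submodule.exists_le_ker_of_lt_top W (lt_top_iff_ne_top.mpr htop)
    have hf1 : ∀ F ∈ I, ∑ k, φ (dP p w k F) * f (Pi.single k 1) = 0 := by
      intro F hF
      have h1 : (fun k => φ (dP p w k F)) ∈ LinearMap.ker f :=
        hfW (Submodule.subset_span ⟨F, hF, rfl⟩)
      rw [LinearMap.mem_ker, LinearMap.pi_apply_eq_sum_univ] at h1
      simp only [smul_eq_mul] at h1
      convert h1 using 1
      apply Finset.sum_congr rfl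
      intro k _
      congr 2
      ext j
      by_cases h : k = j
      · subst h; simp
      · rw [Pi.single_eq_of_ne (Ne.symm h), if_neg h]
    have hf2 : ∃ k, f (Pi.single k 1) ≠ 0 := by
      by_contra hcon
      push Not at hcon
      apply hf0
      apply LinearMap.pi_ext'
      intro k
      apply LinearMap.ext_ring
      simpa using hcon k
    obtain ⟨k0, hk0⟩ := hf2
    obtain ⟨b, hb⟩ := IsLocalization.exist_integer_multiples_of_finite
      (nonZeroDivisors (PR d N ⧸ I)) (S := L) (fun k : Fin d => f (Pi.single k 1))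
    have hb0 : algebraMap (PR d N ⧸ I) L (b : PR d N ⧸ I) ≠ 0 := by
      rw [ne_eq, FaithfulSMul.algebraMap_eq_zero_iff]
      exact nonZeroDivisors.ne_zero b.2
    have hM : ∀ k, ∃ M : PR d N, φ M =
        algebraMap (PR d N ⧸ I) L (b : PR d N ⧸ I) * f (Pi.single k 1) := by
      intro k
      obtain ⟨a, ha⟩ := hb k
      obtain ⟨M, rfl⟩ := Ideal.Quotient.mk_surjective a
      refine ⟨M, ?_⟩
      rw [hφ, RingHom.comp_apply, ha, Algebra.smul_def]
    choose M hM using hM
    refine ⟨M, fun F hF => ?_, k0, fun h => ?_⟩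
    · rw [← hφ0, map_sum]
      have : ∀ k, φ (M k * dP p w k F) = algebraMap (PR d N ⧸ I) L (b : PR d N ⧸ I) *
          (φ (dP p w k F) * f (Pi.single k 1)) := by
        intro k
        rw [map_mul, hM]
        ring
      simp only [this]
      rw [← Finset.mul_sum, hf1 F hF, mul_zero]
    · rw [← hφ0, hM] at h
      rcases mul_eq_zero.mp h with h | h
      · exact hb0 h
      · exact hk0 h

end Pool.Agent.Lib.MP_3f9d7d_an.H30
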