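import Mathlib
import Pool.Agent.Lib.MP_3f9d7d_an.H30.EL

open MeasureTheory Metric Set Filter Topology
open scoped ENNReal

namespace Pool.Agent.Lib.MP_3f9d7d_an.H30

/-- The convex hull of a compact set in a finite dimensional space is compact. -/
theorem isCompact_hull {E : Type*} [NormedAddCommGroup E] [NormedSpace ℝ E]
    [FiniteDimensional ℝ E] {s : Set E} (hs : IsCompact s) : IsCompact (convexHull ℝ s) := by
  classical
  rcases s.eq_empty_or_nonempty with rfl | ⟨z0, hz0⟩
  · simp
  set D := Module.finrank ℝ E with hD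
  set f : (Fin (D + 1) → ℝ) × (Fin (D + 1) → E) → E := fun q => ∑ i, q.1 i • q.2 i with hf
  have hfc : Continuous f := by
    rw [hf]
    fun_prop
  have hc : IsCompact ((stdSimplex ℝ (Fin (D + 1))) ×ˢ (Set.pi univ fun _ : Fin (D + 1) => s)) :=
    (isCompact_stdSimplex ℝ (Fin (D + 1))).prod (isCompact_univ_pi fun _ => hs)
  have himg : convexHull ℝ s =
      f '' ((stdSimplex ℝ (Fin (D + 1))) ×ˢ (Set.pi univ fun _ : Fin (D + 1) => s)) := by
    apply Subset.antisymm
    · intro x hx
      obtain ⟨ι, hι, z, w, hz, haff, hw, hw1, hx⟩ := eq_pos_convex_span_of_mem_convexHull hx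
      have hcard : Fintype.card ι ≤ D + 1 := haff.card_le_finrank_succ.trans (by
        rw [hD]
        have := (vectorSpan ℝ (Set.range z)).finrank_le
        omega)
      obtain ⟨e⟩ : Nonempty (ι ↪ Fin (D + 1)) :=
        Function.Embedding.nonempty_of_card_le (by simpa using hcard)
      refine ⟨(Function.extend e w 0, Function.extend e z fun _ => z0), ⟨⟨?_, ?_⟩, ?_⟩, ?_⟩
      · intro j
        by_cases h : ∃ i, e i = j
        · obtain ⟨i, rfl⟩ := h
          simp only [e.injective.extend_apply]
          exact (hw i).le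
        · simp only [Function.extend_apply' _ _ _ h]
          simp
      · rw [← hw1]
        symm
        apply Fintype.sum_of_injective e e.injective
        · intro j hj
          have h : ¬ ∃ i, e i = j := fun ⟨i, hi⟩ => hj ⟨i, hi⟩
          simp only [Function.extend_apply' _ _ _ h]
          simp
        · intro i
          simp only [e.injective.extend_apply]
      · intro j _
        by_cases h : ∃ i, e i = j
        · obtain ⟨i, rfl⟩ := h
          simp only [e.injective.extend_apply]
          exact hz ⟨i, rfl⟩
        · simp only [Function.extend_apply' _ _ _ h]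
          exact hz0
      · rw [← hx, hf]
        symm
        apply Fintype.sum_of_injective e e.injective
        · intro j hj
          have h : ¬ ∃ i, e i = j := fun ⟨i, hi⟩ => hj ⟨i, hi⟩
          simp only [Function.extend_apply' _ _ _ h]
          simp
        · intro i
          simp only [e.injective.extend_apply]
    · rintro _ ⟨⟨w, z⟩, ⟨⟨hw0, hw1⟩, hz⟩, rfl⟩
      exact mem_convexHull_of_exists_fintype w z hw0 hw1 (fun i => hz i (mem_univ i)) rfl
  rw [himg]
  exact hc.image hfc

variable {X : Type*} [MetricSpace X] [CompactSpace X] [SecondCountableTopology X]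
  [MeasurableSpace X] [BorelSpace X]

/-- A convex combination of point masses. -/
noncomputable def comb {ι : Type*} [Fintype ι] (w : ι → ℝ) (x : ι → X) : Measure X :=
  ∑ i, ENNReal.ofReal (w i) • Measure.dirac (x i)

omit [MetricSpace X] [CompactSpace X] [SecondCountableTopology X] [BorelSpace X] in
lemma comb_prob {ι : Type*} [Fintype ι] {w : ι → ℝ} (hw : ∀ i, 0 ≤ w i) (hw1 : ∑ i, w i = 1)
    (x : ι → X) : IsProbabilityMeasure (comb w x) := by
  constructor
  unfold comb
  rw [Measure.finsetSum_apply]
  simp only [Measure.smul_apply, measure_univ, smul_eq_mul, mul_one]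
  rw [← ENNReal.ofReal_sum_of_nonneg fun i _ => hw i, hw1, ENNReal.ofReal_one]

omit [SecondCountableTopology X] in
lemma integral_comb {ι : Type*} [Fintype ι] {w : ι → ℝ} (hw : ∀ i, 0 ≤ w i)
    (x : ι → X) {f : X → ℝ} (hf : Continuous f) :
    ∫ y, f y ∂(comb w x) = ∑ i, w i * f (x i) := by
  unfold comb
  rw [integral_finsetSum_measure]
  · apply Finset.sum_congr rfl
    intro i _
    rw [integral_smul_measure, integral_dirac, ENNReal.toReal_ofReal (hw i), smul_eq_mul]
  · intro i _
    exact (integrable_cont hf _).smul_measure ENNReal.ofReal_ne_top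

omit [CompactSpace X] [SecondCountableTopology X] in
lemma comb_support {ι : Type*} [Fintype ι] (w : ι → ℝ) (x : ι → X) :
    (comb w x).support ⊆ Set.range x := by
  apply Measure.support_subset_of_isClosed (Set.finite_range x).isClosed
  rw [mem_ae_iff]
  unfold comb
  rw [Measure.finsetSum_apply]
  apply Finset.sum_eq_zero
  intro i _
  rw [Measure.smul_apply, Measure.dirac_apply' _ (Set.finite_range x).isClosed.measurableSet.compl]
  simp

/-- A minimizer whose kernel has finite rank on its support can be replaced by a finitely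
supported one. -/
theorem exists_finite {K : X × X → ℝ} (hK : Continuous K) (hsymm : ∀ x y, K (x, y) = K (y, x))
    {μ : Measure X} [IsProbabilityMeasure μ]
    (hmin : ∀ ν : Measure X, IsProbabilityMeasure ν →
      ∫ z, K z ∂(μ.prod μ) ≤ ∫ z, K z ∂(ν.prod ν))
    {N : ℕ} {v : Fin N → X} {Q : Matrix (Fin N) (Fin N) ℝ}
    (hQ : ∀ x ∈ μ.support, ∀ y ∈ μ.support,
      K (x, y) = ∑ i, (∑ j, K (x, v j) * Q j i) * K (v i, y)) :
    ∃ ν : Measure X, IsProbabilityMeasure ν ∧ ν.support.Finite ∧ ν.support ⊆ μ.support ∧
      ∫ z, K z ∂(ν.prod ν) = ∫ z, K z ∂(μ.prod μ) := by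
  set φ : X → Fin N → ℝ := fun x j => K (x, v j) with hφ
  have hφc : Continuous φ := by
    apply continuous_pi
    intro j
    rw [hφ]
    fun_prop
  have hφj : ∀ j, Continuous fun x => φ x j := fun j => (continuous_apply j).comp hφc
  have hcomp : IsCompact (convexHull ℝ (φ '' μ.support)) :=
    isCompact_hull (Measure.isClosed_support.isCompact.image hφc)
  have hφi : Integrable φ μ := by
    have := hφc.continuousOn (s := univ) |>.integrableOn_compact (μ := μ) isCompact_univ
    simpa using this
  have hmean : ∫ x, φ x ∂μ ∈ convexHull ℝ (φ '' μ.support) := by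
    apply (convex_convexHull ℝ _).integral_mem hcomp.isClosed _ hφi
    filter_upwards [Measure.support_mem_ae (μ := μ)] with x hx
    exact subset_convexHull ℝ _ ⟨x, hx, rfl⟩
  obtain ⟨ι, hι, w, z, hw0, hw1, hz, hm⟩ := mem_convexHull_iff_exists_fintype.mp hmean
  choose x hxs hxz using hz
  have hmj : ∀ j, ∑ i, w i * K (x i, v j) = ∫ y, K (y, v j) ∂μ := by
    intro j
    have h1 := congrFun hm j
    rw [eval_integral (fun i => integrable_cont (hφj i) μ)] at h1
    rw [Finset.sum_apply] at h1
    have h2 : ∀ i, (w i • z i) j = w i * K (x i, v j) := by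
      intro i
      rw [← hxz i]
      rfl
    simp only [h2] at h1
    exact h1
  set ν := comb w x with hν
  have hprob : IsProbabilityMeasure ν := comb_prob hw0 hw1 x
  have hsub : ν.support ⊆ μ.support := (comb_support w x).trans (by
    rintro _ ⟨i, rfl⟩
    exact hxs i)
  refine ⟨ν, hprob, (Set.finite_range x).subset (comb_support w x), hsub, ?_⟩
  set I := ∫ z, K z ∂(μ.prod μ) with hI
  have hU : ∀ y ∈ μ.support, ∑ i, w i * K (y, x i) = I := by
    intro y hy
    have e1 : ∀ i, K (y, x i) = ∑ a, (∑ j, K (x i, v j) * Q j a) * K (v a, y) := by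
      intro i
      rw [hsymm y (x i)]
      exact hQ (x i) (hxs i) y hy
    have e2 : ∫ t, K (y, t) ∂μ = ∑ a, (∑ j, (∫ t, K (t, v j) ∂μ) * Q j a) * K (v a, y) := by
      have h1 : ∫ t, K (y, t) ∂μ = ∫ t, ∑ a, (∑ j, K (t, v j) * Q j a) * K (v a, y) ∂μ := by
        apply integral_congr_ae
        filter_upwards [Measure.support_mem_ae (μ := μ)] with t ht
        rw [hsymm y t]
        exact hQ t ht y hy
      rw [h1, integral_finsetSum]
      · apply Finset.sum_congr rfl
        intro a _
        rw [integral_mul_const, integral_finsetSum]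
        · congr 1
          apply Finset.sum_congr rfl
          intro j _
          rw [integral_mul_const]
        · intro j _
          exact (integrable_cont (hφj j) μ).mul_const _
      · intro a _
        apply Integrable.mul_const
        apply integrable_finsetSum
        intro j _
        exact (integrable_cont (hφj j) μ).mul_const _
    have e3 : ∫ t, K (y, t) ∂μ = I := potential_eq hK hsymm hmin hy
    rw [← e3, e2]
    have e4 : ∑ i, w i * K (y, x i) = ∑ i, w i * ∑ a, (∑ j, K (x i, v j) * Q j a) * K (v a, y) :=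
      Finset.sum_congr rfl fun i _ => by rw [e1 i]
    rw [e4]
    have e5 : ∑ i, w i * ∑ a, (∑ j, K (x i, v j) * Q j a) * K (v a, y) =
        ∑ a, (∑ j, (∑ i, w i * K (x i, v j)) * Q j a) * K (v a, y) := by
      simp only [Finset.mul_sum, Finset.sum_mul]
      rw [Finset.sum_comm]
      apply Finset.sum_congr rfl
      intro a _
      rw [Finset.sum_comm]
      apply Finset.sum_congr rfl
      intro j _
      apply Finset.sum_congr rfl
      intro i _
      ring
    rw [e5]
    simp only [hmj]
  rw [integral_prod _ (integrable_cont_prod hK ν)]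
  have e1 : ∀ a, ∫ b, K (a, b) ∂ν = ∑ i, w i * K (a, x i) := by
    intro a
    rw [hν, integral_comb hw0 x (f := fun b => K (a, b)) (by fun_prop)]
  simp only [e1]
  rw [hν, integral_comb hw0 x (f := fun a => ∑ i, w i * K (a, x i)) (by fun_prop)]
  have e2 : ∀ i, w i * ∑ j, w j * K (x i, x j) = w i * I := by
    intro i
    rw [hU _ (hxs i)]
  simp only [e2]
  rw [← Finset.sum_mul, hw1, one_mul]

/-- A continuous kernel on a compact space has a minimizing probability measure. -/
theorem exists_minimizer [Nonempty X] {K : X × X → ℝ} (hK : Continuous K) :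
    ∃ μ : Measure X, IsProbabilityMeasure μ ∧ ∀ ν : Measure X, IsProbabilityMeasure ν →
      ∫ z, K z ∂(μ.prod μ) ≤ ∫ z, K z ∂(ν.prod ν) := by
  have hne : Nonempty (ProbabilityMeasure X) := ⟨⟨Measure.dirac (Classical.arbitrary X),
    inferInstance⟩⟩
  have hcont : Continuous fun μ : ProbabilityMeasure X =>
      ∫ z, K z ∂((μ : Measure X).prod (μ : Measure X)) := by
    have h1 : Continuous fun μ : ProbabilityMeasure X => μ.prod μ :=
      ProbabilityMeasure.continuous_prod.comp (continuous_id.prodMk continuous_id)
    have h2 := (ProbabilityMeasure.continuous_integral_continuousMap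
      (X := X × X) (⟨K, hK⟩ : C(X × X, ℝ))).comp h1
    exact h2
  obtain ⟨μ, -, hμ⟩ := isCompact_univ.exists_isMinOn univ_nonempty hcont.continuousOn
  refine ⟨μ, inferInstance, fun ν hν => ?_⟩
  exact hμ (mem_univ (⟨ν, hν⟩ : ProbabilityMeasure X))

end Pool.Agent.Lib.MP_3f9d7d_an.H30
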