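import Mathlib

open Set

namespace Pool.Agent.Lib.MP_3f9d7d_an.H30

/-- First auxiliary function. -/
lemma S_nonneg {q s : ℝ} (hq1 : 1 ≤ q) (hq2 : q ≤ 2) (hs0 : 0 ≤ s) (hs1 : s < 1) :
    0 ≤ (1 + s) ^ q - (1 - s) ^ q - q * s * ((1 + s) ^ (q - 1) + (1 - s) ^ (q - 1)) := by
  set S : ℝ → ℝ := fun s =>
    (1 + s) ^ q - (1 - s) ^ q - q * s * ((1 + s) ^ (q - 1) + (1 - s) ^ (q - 1)) with hS
  have hd : ∀ t ∈ Ico (0 : ℝ) 1, HasDerivAt S
      (-(q * (q - 1) * t * ((1 + t) ^ (q - 1 - 1) - (1 - t) ^ (q - 1 - 1)))) t := by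
    intro t ht
    have h1 : (1 + t) ≠ 0 := by linarith [ht.1]
    have h2 : (1 - t) ≠ 0 := by linarith [ht.2]
    have d1 : HasDerivAt (fun t : ℝ => 1 + t) 1 t := (hasDerivAt_id t).const_add 1
    have d2 : HasDerivAt (fun t : ℝ => 1 - t) (-1) t := (hasDerivAt_id t).const_sub 1
    have e1 := d1.rpow_const (p := q) (Or.inl h1)
    have e2 := d2.rpow_const (p := q) (Or.inl h2)
    have e3 := d1.rpow_const (p := q - 1) (Or.inl h1)
    have e4 := d2.rpow_const (p := q - 1) (Or.inl h2)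
    have d5 : HasDerivAt (fun t : ℝ => q * t) q t := by
      simpa using (hasDerivAt_id t).const_mul q
    have h := (e1.sub e2).sub (d5.mul (e3.add e4))
    refine h.congr_deriv ?_
    simp only [Pi.add_apply]
    ring
  have hmono : MonotoneOn S (Ico 0 1) := by
    apply monotoneOn_of_deriv_nonneg (convex_Ico 0 1)
    · exact fun t ht => (hd t ht).continuousAt.continuousWithinAt
    · intro t ht
      rw [interior_Ico] at ht
      exact (hd t ⟨ht.1.le, ht.2⟩).differentiableAt.differentiableWithinAt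
    · intro t ht
      rw [interior_Ico] at ht
      rw [(hd t ⟨ht.1.le, ht.2⟩).deriv]
      have h1 : (1 + t) ^ (q - 1 - 1) ≤ 1 :=
        Real.rpow_le_one_of_one_le_of_nonpos (by linarith [ht.1]) (by linarith)
      have h2 : 1 ≤ (1 - t) ^ (q - 1 - 1) :=
        Real.one_le_rpow_of_pos_of_le_one_of_nonpos (by linarith [ht.2]) (by linarith [ht.1])
          (by linarith)
      have h3 : 0 ≤ q * (q - 1) * t :=
        mul_nonneg (mul_nonneg (by linarith) (by linarith)) ht.1.le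
      nlinarith
  have h0 : S 0 = 0 := by simp [hS]
  have := hmono (⟨le_refl _, one_pos⟩ : (0 : ℝ) ∈ Ico (0 : ℝ) 1) ⟨hs0, hs1⟩ hs0
  rw [h0] at this
  exact this

/-- Second auxiliary function. -/
lemma R_ge_one {p s : ℝ} (hp2 : 2 ≤ p) (hp3 : p ≤ 3) (hs0 : 0 ≤ s) (hs1 : s ≤ 1) :
    1 ≤ ((1 - s) ^ p + (1 + s) ^ p) / 2 -
      p * s / 4 * ((1 + s) ^ (p - 1) - (1 - s) ^ (p - 1)) := by
  set R : ℝ → ℝ := fun s => ((1 - s) ^ p + (1 + s) ^ p) / 2 -
      p * s / 4 * ((1 + s) ^ (p - 1) - (1 - s) ^ (p - 1)) with hR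
  have hc : ContinuousOn R (Icc 0 1) := by
    apply ContinuousOn.sub
    · apply ContinuousOn.div_const
      apply ContinuousOn.add
      · exact (ContinuousOn.rpow_const (by fun_prop) fun x _ => Or.inr (by linarith))
      · exact (ContinuousOn.rpow_const (by fun_prop) fun x _ => Or.inr (by linarith))
    · apply ContinuousOn.mul (by fun_prop)
      apply ContinuousOn.sub
      · exact (ContinuousOn.rpow_const (by fun_prop) fun x _ => Or.inr (by linarith))
      · exact (ContinuousOn.rpow_const (by fun_prop) fun x _ => Or.inr (by linarith))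
  have hd : ∀ t ∈ Ioo (0 : ℝ) 1, HasDerivAt R
      (p / 4 * ((1 + t) ^ (p - 1) - (1 - t) ^ (p - 1) -
        (p - 1) * t * ((1 + t) ^ (p - 1 - 1) + (1 - t) ^ (p - 1 - 1)))) t := by
    intro t ht
    have h1 : (1 + t) ≠ 0 := by linarith [ht.1]
    have h2 : (1 - t) ≠ 0 := by linarith [ht.2]
    have d1 : HasDerivAt (fun t : ℝ => 1 + t) 1 t := (hasDerivAt_id t).const_add 1
    have d2 : HasDerivAt (fun t : ℝ => 1 - t) (-1) t := (hasDerivAt_id t).const_sub 1
    have e1 := d1.rpow_const (p := p) (Or.inl h1)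
    have e2 := d2.rpow_const (p := p) (Or.inl h2)
    have e3 := d1.rpow_const (p := p - 1) (Or.inl h1)
    have e4 := d2.rpow_const (p := p - 1) (Or.inl h2)
    have d5 : HasDerivAt (fun t : ℝ => p * t / 4) (p / 4) t := by
      have := ((hasDerivAt_id t).const_mul p).div_const 4
      simpa using this
    have h := ((e2.add e1).div_const 2).sub (d5.mul (e3.sub e4))
    refine h.congr_deriv ?_
    simp only [Pi.sub_apply]
    ring
  have hmono : MonotoneOn R (Icc 0 1) := by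
    apply monotoneOn_of_deriv_nonneg (convex_Icc 0 1) hc
    · intro t ht
      rw [interior_Icc] at ht
      exact (hd t ht).differentiableAt.differentiableWithinAt
    · intro t ht
      rw [interior_Icc] at ht
      rw [(hd t ht).deriv]
      exact mul_nonneg (by linarith)
        (S_nonneg (q := p - 1) (by linarith) (by linarith) ht.1.le ht.2)
  have h0 : R 0 = 1 := by simp [hR]
  have := hmono (⟨le_refl _, zero_le_one⟩ : (0 : ℝ) ∈ Icc (0 : ℝ) 1) ⟨hs0, hs1⟩ hs0
  rw [h0] at this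
  exact this

/-- The chord inequality for nonnegative numbers. -/
theorem chord_le {p a b : ℝ} (hp2 : 2 ≤ p) (hp3 : p ≤ 3) (ha : 0 ≤ a) (hb : 0 ≤ b) :
    ((a + b) / 2) ^ p ≤ (a ^ p + b ^ p) / 2 - p / 8 * ((b - a) * (b ^ (p - 1) - a ^ (p - 1))) := by
  wlog hab : a ≤ b generalizing a b
  · have := this hb ha (le_of_not_ge hab)
    calc ((a + b) / 2) ^ p = ((b + a) / 2) ^ p := by rw [add_comm]
      _ ≤ _ := this
      _ = _ := by ring
  rcases hb.eq_or_lt with rfl | hb0
  · have ha0 : a = 0 := le_antisymm hab ha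
    subst ha0
    simp [Real.zero_rpow (show p ≠ 0 by linarith)]
  set σ : ℝ := (a + b) / 2 with hσ
  have hσ0 : 0 < σ := by rw [hσ]; linarith
  set s : ℝ := (b - a) / (a + b) with hs
  have hs0 : 0 ≤ s := div_nonneg (by linarith) (by linarith)
  have hs1 : s ≤ 1 := by rw [hs, div_le_one (by linarith)]; linarith
  have hab' : a + b ≠ 0 := by linarith
  have ea : a = σ * (1 - s) := by rw [hσ, hs]; field_simp; ring
  have eb : b = σ * (1 + s) := by rw [hσ, hs]; field_simp; ring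
  have h := R_ge_one hp2 hp3 hs0 hs1
  have e1 : a ^ p = σ ^ p * (1 - s) ^ p := by
    rw [ea, Real.mul_rpow hσ0.le (by linarith)]
  have e2 : b ^ p = σ ^ p * (1 + s) ^ p := by
    rw [eb, Real.mul_rpow hσ0.le (by linarith)]
  have e3 : a ^ (p - 1) = σ ^ (p - 1) * (1 - s) ^ (p - 1) := by
    rw [ea, Real.mul_rpow hσ0.le (by linarith)]
  have e4 : b ^ (p - 1) = σ ^ (p - 1) * (1 + s) ^ (p - 1) := by
    rw [eb, Real.mul_rpow hσ0.le (by linarith)]
  have e5 : b - a = σ * (2 * s) := by rw [ea, eb]; ring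
  have e6 : σ * σ ^ (p - 1) = σ ^ p := by
    rw [Real.rpow_sub_one hσ0.ne']
    field_simp
  have e7 : (b - a) * (b ^ (p - 1) - a ^ (p - 1)) =
      σ ^ p * (2 * s * ((1 + s) ^ (p - 1) - (1 - s) ^ (p - 1))) := by
    rw [e3, e4, e5, ← e6]; ring
  rw [e1, e2, e7]
  have h8 : 0 < σ ^ p := Real.rpow_pos_of_pos hσ0 p
  nlinarith

end Pool.Agent.Lib.MP_3f9d7d_an.H30
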