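import Mathlib

open Matrix Finset

namespace Pool.Agent.Lib.MP_3f9d7d_an.H30

variable {ι : Type*} {k : ι → ι → ℝ}

lemma psd_family (hpsd : ∀ (s : Finset ι) (c : ι → ℝ), 0 ≤ ∑ x ∈ s, ∑ y ∈ s, c x * c y * k x y)
    {M : Type*} [Fintype M] (w : M → ι) (c : M → ℝ) :
    0 ≤ ∑ i, ∑ j, c i * c j * k (w i) (w j) := by
  classical
  have h := hpsd (univ.image w) (fun a => ∑ i, if w i = a then c i else 0)
  have key : ∀ f : ι → ℝ, ∑ a ∈ univ.image w, (∑ i, if w i = a then c i else 0) * f a =
      ∑ i, c i * f (w i) := by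
    intro f
    simp only [Finset.sum_mul]
    rw [Finset.sum_comm]
    apply Finset.sum_congr rfl
    intro i _
    simp only [ite_mul, zero_mul]
    rw [Finset.sum_ite_eq]
    simp
  have e1 : ∑ x ∈ univ.image w, ∑ y ∈ univ.image w,
      (∑ i, if w i = x then c i else 0) * (∑ i, if w i = y then c i else 0) * k x y =
      ∑ i, ∑ j, c i * c j * k (w i) (w j) := by
    have e2 : ∀ x, ∑ y ∈ univ.image w,
        (∑ i, if w i = x then c i else 0) * (∑ i, if w i = y then c i else 0) * k x y =
        (∑ i, if w i = x then c i else 0) * ∑ j, c j * k x (w j) := by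
      intro x
      rw [← key (fun y => k x y), Finset.mul_sum]
      apply Finset.sum_congr rfl
      intro y _
      ring
    simp only [e2]
    rw [key]
    apply Finset.sum_congr rfl
    intro i _
    rw [Finset.mul_sum]
    apply Finset.sum_congr rfl
    intro j _
    ring
  rw [e1] at h
  exact h

lemma null_family (hsymm : ∀ x y, k x y = k y x)
    (hpsd : ∀ (s : Finset ι) (c : ι → ℝ), 0 ≤ ∑ x ∈ s, ∑ y ∈ s, c x * c y * k x y)
    {M : Type*} [Fintype M] (w : M → ι) (c : M → ℝ)
    (h0 : ∑ i, ∑ j, c i * c j * k (w i) (w j) = 0) (y : ι) : ∑ i, c i * k (w i) y = 0 := by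
  set S := ∑ i, c i * k (w i) y with hS
  have key : ∀ t : ℝ, 0 ≤ 2 * t * S + t ^ 2 * k y y := by
    intro t
    have h := psd_family hpsd (M := Option M) (fun o => o.elim y w) (fun o => o.elim t c)
    simp only [Fintype.sum_option, Option.elim] at h
    have e1 : ∑ i, (c i * t * k (w i) y + ∑ j, c i * c j * k (w i) (w j)) =
        t * S := by
      rw [Finset.sum_add_distrib, h0, add_zero, hS, Finset.mul_sum]
      apply Finset.sum_congr rfl
      intro i _
      ring
    have e2 : ∑ i, t * c i * k y (w i) = t * S := by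
      rw [hS, Finset.mul_sum]
      apply Finset.sum_congr rfl
      intro i _
      rw [hsymm y (w i)]
      ring
    rw [e1, e2] at h
    linarith
  by_contra hne
  have hS2 : 0 < S ^ 2 := by positivity
  set κ := |k y y| + 1 with hκ
  have hκ0 : 0 < κ := by positivity
  have h := key (-S / κ)
  have h1 : (-S / κ) ^ 2 * k y y ≤ (-S / κ) ^ 2 * κ := by
    apply mul_le_mul_of_nonneg_left _ (sq_nonneg _)
    have := le_abs_self (k y y)
    linarith
  have h2 : (-S / κ) ^ 2 * κ = S ^ 2 / κ := by field_simp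
  have h3 : 2 * (-S / κ) * S = -2 * (S ^ 2 / κ) := by field_simp
  have h4 : 0 < S ^ 2 / κ := by positivity
  rw [h3] at h
  linarith

/-- The Gram matrix of a family. -/
def gram (k : ι → ι → ℝ) {N : ℕ} (v : Fin N → ι) : Matrix (Fin N) (Fin N) ℝ :=
  Matrix.of fun i j => k (v i) (v j)

lemma gram_form {N : ℕ} (v : Fin N → ι) (c : Fin N → ℝ) :
    star c ⬝ᵥ (gram k v *ᵥ c) = ∑ i, ∑ j, c i * c j * k (v i) (v j) := by
  simp only [dotProduct, mulVec, gram, Matrix.of_apply, Pi.star_apply, star_trivial,
    Finset.mul_sum]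
  apply Finset.sum_congr rfl
  intro i _
  apply Finset.sum_congr rfl
  intro j _
  ring

lemma gram_isHermitian (hsymm : ∀ x y, k x y = k y x) {N : ℕ} (v : Fin N → ι) :
    (gram k v).IsHermitian := by
  ext i j
  simp [gram, hsymm (v j) (v i)]

lemma posDef_pow {N : ℕ} {v : Fin N → ι} (h : (gram k v).PosDef) (n : ℕ) :
    (gram (fun x y => k x y ^ (n + 1)) v).PosDef := by
  induction n with
  | zero => simpa [gram] using h
  | succ n ih =>
    have := ih.hadamard h
    have e : gram (fun x y => k x y ^ (n + 1)) v ⊙ gram k v =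
        gram (fun x y => k x y ^ (n + 1 + 1)) v := by
      ext i j
      simp [gram, pow_succ]
    rwa [e] at this

/-- Positive definiteness bounds the size of the family. -/
lemma card_le {N D : ℕ} {v : Fin N → ι} {n : ℕ} (h : (gram k v).PosDef) {T : ι → Fin D → ℝ}
    (hT : ∀ i j, k (v i) (v j) ^ (n + 1) = ∑ l, T (v i) l * T (v j) l) : N ≤ D := by
  by_contra hlt
  push Not at hlt
  set f : (Fin N → ℝ) →ₗ[ℝ] (Fin D → ℝ) :=
    { toFun := fun c l => ∑ i, c i * T (v i) l
      map_add' := by
        intro a b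
        ext l
        simp [add_mul, Finset.sum_add_distrib]
      map_smul' := by
        intro a b
        ext l
        simp [Finset.mul_sum, mul_assoc] } with hf
  have hker : LinearMap.ker f ≠ ⊥ := LinearMap.ker_ne_bot_of_finrank_lt (by simpa using hlt)
  obtain ⟨c, hc, hc0⟩ := (Submodule.ne_bot_iff _).mp hker
  have hc1 : ∀ l, ∑ i, c i * T (v i) l = 0 := fun l => congrFun (LinearMap.mem_ker.mp hc) l
  have h1 := (posDef_pow h n).dotProduct_mulVec_pos hc0
  rw [gram_form] at h1
  have h2 : ∑ i, ∑ j, c i * c j * k (v i) (v j) ^ (n + 1) = 0 := by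
    have e : ∀ i j, c i * c j * k (v i) (v j) ^ (n + 1) =
        ∑ l, (c i * T (v i) l) * (c j * T (v j) l) := by
      intro i j
      rw [hT, Finset.mul_sum]
      apply Finset.sum_congr rfl
      intro l _
      ring
    simp only [e]
    have e2 : ∀ i, ∑ j, ∑ l, (c i * T (v i) l) * (c j * T (v j) l) = 0 := by
      intro i
      rw [Finset.sum_comm]
      apply Finset.sum_eq_zero
      intro l _
      rw [← Finset.mul_sum, hc1 l, mul_zero]
    simp only [e2, Finset.sum_const_zero]
  linarith

/-- A positive semidefinite kernel with a bound for the size of positive definite families in `B`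
has finite rank on `B`. -/
theorem finite_rank_of_bound (hsymm : ∀ x y, k x y = k y x)
    (hpsd : ∀ (s : Finset ι) (c : ι → ℝ), 0 ≤ ∑ x ∈ s, ∑ y ∈ s, c x * c y * k x y)
    (B : Set ι) {D : ℕ}
    (hbd : ∀ (N : ℕ) (v : Fin N → ι), (∀ i, v i ∈ B) → (gram k v).PosDef → N ≤ D) :
    ∃ (N : ℕ) (v : Fin N → ι), (∀ i, v i ∈ B) ∧ ∃ Q : Matrix (Fin N) (Fin N) ℝ,
      ∀ x ∈ B, ∀ y, k x y = ∑ i, (∑ j, k x (v j) * Q j i) * k (v i) y := by
  classical
  set P : ℕ → Prop := fun N => ∃ v : Fin N → ι, (∀ i, v i ∈ B) ∧ (gram k v).PosDef with hP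
  have hP0 : P 0 := by
    refine ⟨Fin.elim0, fun i => i.elim0, ?_⟩
    apply Matrix.PosDef.of_dotProduct_mulVec_pos (gram_isHermitian hsymm _)
    intro x hx
    exact absurd (Subsingleton.elim x 0) hx
  have hex : ∃ N, ¬ P (N + 1) := by
    refine ⟨D, ?_⟩
    rintro ⟨v, hv, h⟩
    have := hbd _ v hv h
    omega
  set N := Nat.find hex with hN
  have hN1 : ¬ P (N + 1) := Nat.find_spec hex
  have hN0 : P N := by
    rcases Nat.eq_zero_or_pos N with h | h
    · rw [h]; exact hP0
    · have h1 := Nat.find_min hex (m := N - 1) (by omega)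
      rw [not_not] at h1
      have h2 : N - 1 + 1 = N := by omega
      rwa [h2] at h1
  obtain ⟨v, hv, hG⟩ := hN0
  have hnull : ∀ x ∈ B, ∃ e : Fin N → ℝ, ∀ y, k x y = ∑ i, e i * k (v i) y := by
    intro x hx
    have hnot : ¬ (gram k (Fin.cons x v)).PosDef := by
      intro h
      apply hN1
      refine ⟨Fin.cons x v, ?_, h⟩
      intro i
      refine Fin.cases ?_ (fun i => ?_) i
      · simpa using hx
      · simpa using hv i
    have : ∃ c : Fin (N + 1) → ℝ, c ≠ 0 ∧
        ∑ i, ∑ j, c i * c j * k ((Fin.cons x v : Fin (N + 1) → ι) i)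
          ((Fin.cons x v : Fin (N + 1) → ι) j) = 0 := by
      by_contra hcon
      push Not at hcon
      apply hnot
      apply Matrix.PosDef.of_dotProduct_mulVec_pos (gram_isHermitian hsymm _)
      intro c hc
      rw [gram_form]
      exact lt_of_le_of_ne (psd_family hpsd _ _) (Ne.symm (hcon c hc))
    obtain ⟨c, hc, hc0⟩ := this
    have hn := null_family hsymm hpsd _ _ hc0
    have hn' : ∀ y, c 0 * k x y + ∑ i : Fin N, c i.succ * k (v i) y = 0 := by
      intro y
      have := hn y
      rw [Fin.sum_univ_succ] at this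
      simpa using this
    have hcx : c 0 ≠ 0 := by
      intro h00
      have hc' : (fun i : Fin N => c i.succ) ≠ 0 := by
        intro h
        apply hc
        funext i
        refine Fin.cases ?_ (fun i => ?_) i
        · exact h00
        · exact congrFun h i
      have h1 := hG.dotProduct_mulVec_pos hc'
      rw [gram_form] at h1
      have h2 : ∑ i : Fin N, ∑ j : Fin N, c i.succ * c j.succ * k (v i) (v j) = 0 := by
        rw [Finset.sum_comm]
        apply Finset.sum_eq_zero
        intro j _
        have := hn' (v j)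
        rw [h00, zero_mul, zero_add] at this
        have h3 : ∑ i : Fin N, c i.succ * c j.succ * k (v i) (v j) =
            c j.succ * ∑ i : Fin N, c i.succ * k (v i) (v j) := by
          rw [Finset.mul_sum]
          apply Finset.sum_congr rfl
          intro i _
          ring
        rw [h3, this, mul_zero]
      linarith
    refine ⟨fun i => -(c i.succ) / c 0, fun y => ?_⟩
    have h1 := hn' y
    have h2 : ∑ i : Fin N, -(c i.succ) / c 0 * k (v i) y =
        -(∑ i : Fin N, c i.succ * k (v i) y) / c 0 := by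
      rw [neg_div, Finset.sum_div, ← Finset.sum_neg_distrib]
      apply Finset.sum_congr rfl
      intro i _
      ring
    rw [h2]
    field_simp
    linarith
  refine ⟨N, v, hv, (gram k v)⁻¹, fun x hx y => ?_⟩
  obtain ⟨e, he⟩ := hnull x hx
  have hdet : IsUnit (gram k v).det := (Matrix.isUnit_iff_isUnit_det _).mp hG.isUnit
  have h1 : (fun j => k x (v j)) = e ᵥ* (gram k v) := by
    funext j
    rw [he (v j)]
    simp [vecMul, dotProduct, gram]
  have h2 : e = (fun j => k x (v j)) ᵥ* (gram k v)⁻¹ := by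
    rw [h1, vecMul_vecMul, Matrix.mul_nonsing_inv _ hdet, vecMul_one]
  rw [he y]
  apply Finset.sum_congr rfl
  intro i _
  congr 1
  conv_lhs => rw [h2]
  simp [vecMul, dotProduct]

/-- A positive semidefinite kernel some power of which has finite rank on `B` has finite rank
on `B`. -/
theorem finite_rank (hsymm : ∀ x y, k x y = k y x)
    (hpsd : ∀ (s : Finset ι) (c : ι → ℝ), 0 ≤ ∑ x ∈ s, ∑ y ∈ s, c x * c y * k x y)
    (B : Set ι) {D n : ℕ} {T : ι → Fin D → ℝ}
    (hT : ∀ x ∈ B, ∀ y ∈ B, k x y ^ (n + 1) = ∑ l, T x l * T y l) :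
    ∃ (N : ℕ) (v : Fin N → ι), (∀ i, v i ∈ B) ∧ ∃ Q : Matrix (Fin N) (Fin N) ℝ,
      ∀ x ∈ B, ∀ y, k x y = ∑ i, (∑ j, k x (v j) * Q j i) * k (v i) y :=
  finite_rank_of_bound hsymm hpsd B (D := D) fun _ _ hv h =>
    card_le h fun i j => hT _ (hv i) _ (hv j)

/-- The same if the whole space is covered by finitely many sets on which a power has finite
rank. -/
theorem finite_rank_cover (hsymm : ∀ x y, k x y = k y x)
    (hpsd : ∀ (s : Finset ι) (c : ι → ℝ), 0 ≤ ∑ x ∈ s, ∑ y ∈ s, c x * c y * k x y)
    {J : Type*} [Fintype J] (B : J → Set ι) (hcov : ∀ x, ∃ a, x ∈ B a) {D n : ℕ}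
    {T : ι → Fin D → ℝ}
    (hT : ∀ a, ∀ x ∈ B a, ∀ y ∈ B a, k x y ^ (n + 1) = ∑ l, T x l * T y l) :
    ∃ (N : ℕ) (v : Fin N → ι), ∃ Q : Matrix (Fin N) (Fin N) ℝ,
      ∀ x y, k x y = ∑ i, (∑ j, k x (v j) * Q j i) * k (v i) y := by
  classical
  obtain ⟨N, v, -, Q, hQ⟩ := finite_rank_of_bound hsymm hpsd Set.univ
    (D := Fintype.card J * D) (by
      intro N v _ h
      by_contra hlt
      push Not at hlt
      choose c hc using hcov
      obtain ⟨a, ha⟩ := Fintype.exists_lt_card_fiber_of_mul_lt_card (f := fun i : Fin N => c (v i))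
        (n := D) (by simpa using hlt)
      set F : Finset (Fin N) := Finset.univ.filter fun i => c (v i) = a with hF
      have hcard : D + 1 ≤ F.card := ha
      set e : Fin F.card ↪ Fin N := (F.orderEmbOfFin rfl).toEmbedding with he
      have h1 : (gram k (fun i => v (e i))).PosDef := by
        have := h.submatrix e.injective
        exact this
      have h2 := card_le (D := D) (n := n) h1 (T := T) (fun i j => by
        have hmem : ∀ i, c (v (e i)) = a := by
          intro i
          have : e i ∈ F := F.orderEmbOfFin_mem rfl i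
          exact (Finset.mem_filter.mp this).2
        apply hT a
        · have := hc (v (e i)); rwa [hmem i] at this
        · have := hc (v (e j)); rwa [hmem j] at this)
      omega)
  exact ⟨N, v, Q, fun x y => hQ x (Set.mem_univ x) y⟩

end Pool.Agent.Lib.MP_3f9d7d_an.H30
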