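import Pool.Agent.Lib.MP_3f9d7d_an.H30.Rank
import Pool.Agent.Lib.MP_3f9d7d_an.H30.Cluster

open Set
open scoped InnerProductSpace

namespace Pool.Agent.Lib.MP_3f9d7d_an.H30

variable {d : ℕ}

/-- The kernel of the energy on a set of points. -/
noncomputable def ker (p : ℝ) (K : Set (EuclideanSpace ℝ (Fin d))) (x y : K) : ℝ :=
  |⟪(x : EuclideanSpace ℝ (Fin d)), (y : EuclideanSpace ℝ (Fin d))⟫_ℝ| ^ p

lemma ker_symm (p : ℝ) (K : Set (EuclideanSpace ℝ (Fin d))) (x y : K) :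
    ker p K x y = ker p K y x := by
  unfold ker
  rw [real_inner_comm]

lemma ker_pow {p : ℝ} {m n : ℕ} (hp : p * ((n + 1 : ℕ) : ℝ) = m)
    (K : Set (EuclideanSpace ℝ (Fin d))) (x y : K) :
    ker p K x y ^ (n + 1) =
      |⟪(x : EuclideanSpace ℝ (Fin d)), (y : EuclideanSpace ℝ (Fin d))⟫_ℝ| ^ m := by
  unfold ker
  rw [← Real.rpow_natCast, ← Real.rpow_mul (abs_nonneg _), hp, Real.rpow_natCast]

lemma inner_pow_eq (m : ℕ) (x y : EuclideanSpace ℝ (Fin d)) :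
    ⟪x, y⟫_ℝ ^ m = ∑ l : Fin (Fintype.card (Fin m → Fin d)),
      (∏ j, x ((Fintype.equivFin (Fin m → Fin d)).symm l j)) *
        ∏ j, y ((Fintype.equivFin (Fin m → Fin d)).symm l j) := by
  have h1 : ⟪x, y⟫_ℝ = ∑ i, x i * y i := by
    rw [PiLp.inner_apply]
    apply Finset.sum_congr rfl
    intro i _
    simp [mul_comm]
  rw [h1, Fintype.sum_pow]
  rw [← (Fintype.equivFin (Fin m → Fin d)).symm.sum_comp]
  apply Finset.sum_congr rfl
  intro l _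
  rw [← Finset.prod_mul_distrib]

/-- The features on a set of points with positive inner products. -/
theorem exists_family {p : ℝ} {m n : ℕ} (hp : p * ((n + 1 : ℕ) : ℝ) = m)
    {K : Set (EuclideanSpace ℝ (Fin d))}
    (hpsd : ∀ (s : Finset K) (c : K → ℝ), 0 ≤ ∑ x ∈ s, ∑ y ∈ s, c x * c y * ker p K x y)
    {B : Set K} (hB : ∀ x ∈ B, ∀ y ∈ B,
      0 < ⟪(x : EuclideanSpace ℝ (Fin d)), (y : EuclideanSpace ℝ (Fin d))⟫_ℝ) :
    ∃ (N : ℕ) (v : Fin N → K), (∀ i, v i ∈ B) ∧ ∃ Q : Matrix (Fin N) (Fin N) ℝ,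
      ∀ x ∈ B, ∀ y, ker p K x y = ∑ i, (∑ j, ker p K x (v j) * Q j i) * ker p K (v i) y := by
  apply finite_rank (k := ker p K) (ker_symm p K) hpsd B (n := n)
    (T := fun x l => ∏ j, (x : EuclideanSpace ℝ (Fin d))
      ((Fintype.equivFin (Fin m → Fin d)).symm l j))
  intro x hx y hy
  rw [ker_pow hp, abs_of_pos (hB x hx y hy), inner_pow_eq]

/-- The coordinates of the evaluation point. -/
noncomputable def pt {N : ℕ} (p : ℝ) (v : Fin N → EuclideanSpace ℝ (Fin d))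
    (z : EuclideanSpace ℝ (Fin d)) : Fin d ⊕ (Fin N ⊕ Fin N) → ℝ :=
  Sum.elim (fun j => z j) (Sum.elim (fun i => ⟪v i, z⟫_ℝ ^ p) (fun i => (⟪v i, z⟫_ℝ)⁻¹))

/-- The linear form of a vector as a polynomial. -/
noncomputable def linP {N : ℕ} (y : EuclideanSpace ℝ (Fin d)) :
    MvPolynomial (Fin d ⊕ (Fin N ⊕ Fin N)) ℝ :=
  ∑ j, MvPolynomial.C (y j) * MvPolynomial.X (Sum.inl j)

lemma eval_linP {N : ℕ} (p : ℝ) (v : Fin N → EuclideanSpace ℝ (Fin d))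
    (y z : EuclideanSpace ℝ (Fin d)) : MvPolynomial.eval (pt p v z) (linP y) = ⟪z, y⟫_ℝ := by
  unfold linP
  rw [map_sum, PiLp.inner_apply]
  apply Finset.sum_congr rfl
  intro j _
  simp [pt]

/-- The function `x ↦ |⟪x, y⟫| ^ p` as a polynomial. -/
noncomputable def gP {N : ℕ} (c : Fin N → ℝ) :
    MvPolynomial (Fin d ⊕ (Fin N ⊕ Fin N)) ℝ :=
  ∑ j, MvPolynomial.C (c j) * MvPolynomial.X (Sum.inr (Sum.inl j))

lemma eval_gP {N : ℕ} (p : ℝ) (v : Fin N → EuclideanSpace ℝ (Fin d)) (c : Fin N → ℝ)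
    (z : EuclideanSpace ℝ (Fin d)) :
    MvPolynomial.eval (pt p v z) (gP c) = ∑ j, c j * ⟪v j, z⟫_ℝ ^ p := by
  unfold gP
  rw [map_sum]
  apply Finset.sum_congr rfl
  intro j _
  simp [pt]

/-- The coefficients of the function `|⟪·, y⟫| ^ p`. -/
noncomputable def coef {N : ℕ} (p : ℝ) (v : Fin N → EuclideanSpace ℝ (Fin d))
    (Q : Matrix (Fin N) (Fin N) ℝ) (y : EuclideanSpace ℝ (Fin d)) (j : Fin N) : ℝ :=
  ∑ i, Q j i * |⟪v i, y⟫_ℝ| ^ p

lemma ker_eq_sum {p : ℝ} {K : Set (EuclideanSpace ℝ (Fin d))} {B : Set K}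
    (hB : ∀ x ∈ B, ∀ y ∈ B,
      0 < ⟪(x : EuclideanSpace ℝ (Fin d)), (y : EuclideanSpace ℝ (Fin d))⟫_ℝ)
    {N : ℕ} {v : Fin N → K} (hv : ∀ i, v i ∈ B) {Q : Matrix (Fin N) (Fin N) ℝ}
    (hQ : ∀ x ∈ B, ∀ y, ker p K x y = ∑ i, (∑ j, ker p K x (v j) * Q j i) * ker p K (v i) y)
    {x : K} (hx : x ∈ B) (y : K) :
    |⟪(x : EuclideanSpace ℝ (Fin d)), (y : EuclideanSpace ℝ (Fin d))⟫_ℝ| ^ p =
      ∑ j, coef p (fun i => (v i : EuclideanSpace ℝ (Fin d))) Q y j *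
        ⟪(v j : EuclideanSpace ℝ (Fin d)), (x : EuclideanSpace ℝ (Fin d))⟫_ℝ ^ p := by
  have h := hQ x hx y
  have e1 : ker p K x y =
    |⟪(x : EuclideanSpace ℝ (Fin d)), (y : EuclideanSpace ℝ (Fin d))⟫_ℝ| ^ p := rfl
  rw [← e1, h]
  simp only [Finset.sum_mul]
  rw [Finset.sum_comm]
  apply Finset.sum_congr rfl
  intro j _
  unfold coef
  rw [Finset.sum_mul]
  apply Finset.sum_congr rfl
  intro i _
  have e2 : ker p K x (v j) =
      ⟪(v j : EuclideanSpace ℝ (Fin d)), (x : EuclideanSpace ℝ (Fin d))⟫_ℝ ^ p := by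
    rw [ker_symm]
    unfold ker
    rw [abs_of_pos (hB _ (hv j) _ hx)]
  rw [e2]
  unfold ker
  ring

/-- If `p = m / (n+1)` with `m` odd, every point of `K` sees the cluster with a constant sign. -/
theorem sign_const {p : ℝ} {m n : ℕ} (hp : p * ((n + 1 : ℕ) : ℝ) = m) (hm : Odd m)
    {K : Set (EuclideanSpace ℝ (Fin d))}
    (hpsd : ∀ (s : Finset K) (c : K → ℝ), 0 ≤ ∑ x ∈ s, ∑ y ∈ s, c x * c y * ker p K x y)
    {B : Set K} (hBinf : B.Infinite) (hB : ∀ x ∈ B, ∀ y ∈ B,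
      0 < ⟪(x : EuclideanSpace ℝ (Fin d)), (y : EuclideanSpace ℝ (Fin d))⟫_ℝ) :
    ∃ C ⊆ B, C.Infinite ∧ ∀ y : K, ∀ x ∈ C, ∀ x' ∈ C,
      0 ≤ ⟪(x : EuclideanSpace ℝ (Fin d)), (y : EuclideanSpace ℝ (Fin d))⟫_ℝ *
        ⟪(x' : EuclideanSpace ℝ (Fin d)), (y : EuclideanSpace ℝ (Fin d))⟫_ℝ := by
  obtain ⟨N, v, hv, Q, hQ⟩ := exists_family hp hpsd hB
  set w : Fin N → EuclideanSpace ℝ (Fin d) := fun i => v i with hw
  obtain ⟨C, hCB, hC, hmax⟩ := exists_cluster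
    (fun x : K => pt p w (x : EuclideanSpace ℝ (Fin d))) hBinf
  refine ⟨C, hCB, hC, fun y => ?_⟩
  set G : MvPolynomial (Fin d ⊕ (Fin N ⊕ Fin N)) ℝ := gP (coef p w Q y) with hG
  set L : MvPolynomial (Fin d ⊕ (Fin N ⊕ Fin N)) ℝ := linP (y : EuclideanSpace ℝ (Fin d)) with hL
  have hGe : ∀ x ∈ C, MvPolynomial.eval (pt p w (x : EuclideanSpace ℝ (Fin d))) G ^ (n + 1) =
      |⟪(x : EuclideanSpace ℝ (Fin d)), (y : EuclideanSpace ℝ (Fin d))⟫_ℝ| ^ m := by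
    intro x hx
    rw [hG, eval_gP, ← ker_eq_sum hB hv hQ (hCB hx) y]
    exact ker_pow hp K x y
  have hLe : ∀ x : K, MvPolynomial.eval (pt p w (x : EuclideanSpace ℝ (Fin d))) L =
      ⟪(x : EuclideanSpace ℝ (Fin d)), (y : EuclideanSpace ℝ (Fin d))⟫_ℝ := by
    intro x
    rw [hL, eval_linP]
  have hcases : (∀ x ∈ C, 0 ≤ ⟪(x : EuclideanSpace ℝ (Fin d)), (y : EuclideanSpace ℝ (Fin d))⟫_ℝ) ∨
      (∀ x ∈ C, ⟪(x : EuclideanSpace ℝ (Fin d)), (y : EuclideanSpace ℝ (Fin d))⟫_ℝ ≤ 0) := by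
    set C1 : Set K := {x ∈ C | 0 ≤ ⟪(x : EuclideanSpace ℝ (Fin d)),
      (y : EuclideanSpace ℝ (Fin d))⟫_ℝ} with hC1
    set C2 : Set K := {x ∈ C | ⟪(x : EuclideanSpace ℝ (Fin d)),
      (y : EuclideanSpace ℝ (Fin d))⟫_ℝ ≤ 0} with hC2
    have hun : C = C1 ∪ C2 := by
      ext x
      simp only [hC1, hC2, mem_union, Set.mem_ofPred_eq]
      constructor
      · intro hx
        rcases le_total 0 ⟪(x : EuclideanSpace ℝ (Fin d)), (y : EuclideanSpace ℝ (Fin d))⟫_ℝ with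
          h | h
        · exact Or.inl ⟨hx, h⟩
        · exact Or.inr ⟨hx, h⟩
      · rintro (h | h)
        · exact h.1
        · exact h.1
    have hinf : C1.Infinite ∨ C2.Infinite := by
      rw [hun] at hC
      exact infinite_union.mp hC
    rcases hinf with h | h
    · left
      have h1 := hmax (G ^ (n + 1) - L ^ m) C1 (sep_subset _ _) h (by
        intro x hx
        rw [map_sub, map_pow, map_pow, hGe x hx.1, hLe, abs_of_nonneg hx.2, sub_self])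
      intro x hx
      have h2 := h1 x hx
      rw [map_sub, map_pow, map_pow, hGe x hx, hLe] at h2
      have h3 : 0 ≤ ⟪(x : EuclideanSpace ℝ (Fin d)), (y : EuclideanSpace ℝ (Fin d))⟫_ℝ ^ m := by
        have : 0 ≤ |⟪(x : EuclideanSpace ℝ (Fin d)), (y : EuclideanSpace ℝ (Fin d))⟫_ℝ| ^ m := by
          positivity
        linarith
      exact (hm.pow_nonneg_iff).mp h3
    · right
      have h1 := hmax (G ^ (n + 1) + L ^ m) C2 (sep_subset _ _) h (by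
        intro x hx
        rw [map_add, map_pow, map_pow, hGe x hx.1, hLe, abs_of_nonpos hx.2, hm.neg_pow]
        ring)
      intro x hx
      have h2 := h1 x hx
      rw [map_add, map_pow, map_pow, hGe x hx, hLe] at h2
      have h3 : ⟪(x : EuclideanSpace ℝ (Fin d)), (y : EuclideanSpace ℝ (Fin d))⟫_ℝ ^ m ≤ 0 := by
        have : 0 ≤ |⟪(x : EuclideanSpace ℝ (Fin d)), (y : EuclideanSpace ℝ (Fin d))⟫_ℝ| ^ m := by
          positivity
        linarith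
      exact (hm.pow_nonpos_iff).mp h3
  intro x hx x' hx'
  rcases hcases with h | h
  · exact mul_nonneg (h x hx) (h x' hx')
  · exact mul_nonneg_of_nonpos_of_nonpos (h x hx) (h x' hx')

end Pool.Agent.Lib.MP_3f9d7d_an.H30
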