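import Mathlib
import Pool.Agent.Lib.MP_3f9d7d_an.RealSet
import Pool.Agent.Lib.MP_3f9d7d_an.Variation
import Pool.Agent.Lib.MP_3f9d7d_an.H30.Finite
import Pool.Agent.Lib.MP_3f9d7d_an.H30.Sign

open MeasureTheory Metric
open scoped InnerProductSpace

namespace Pool.Agent.Lib.MP_3f9d7d_an.H30

lemma psd_subtype {X : Type*} {K : X × X → ℝ} {S : Set X}
    (h : ∀ (s : Finset X), (∀ x ∈ s, x ∈ S) → ∀ c : X → ℝ,
      0 ≤ ∑ x ∈ s, ∑ y ∈ s, c x * c y * K (x, y)) (s : Finset S) (c : S → ℝ) :
    0 ≤ ∑ x ∈ s, ∑ y ∈ s, c x * c y * K ((x : X), (y : X)) := by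
  classical
  have h1 := h (s.map (Function.Embedding.subtype _)) (by
    intro x hx
    obtain ⟨a, -, rfl⟩ := Finset.mem_map.mp hx
    exact a.2) (fun x => if hx : x ∈ S then c ⟨x, hx⟩ else 0)
  simp only [Finset.sum_map, Function.Embedding.coe_subtype, Subtype.coe_prop, dif_pos,
    Subtype.coe_eta] at h1
  exact h1

/-- Every minimizer of the frame energy can be replaced by a finitely supported one inside its
support. -/
theorem replace (d : ℕ) (p : ℝ) (hp : 0 < p)
    {K : sphere (0 : EuclideanSpace ℝ (Fin d)) 1 × sphere (0 : EuclideanSpace ℝ (Fin d)) 1 → ℝ}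
    (hK : K = fun z => |⟪(z.1 : EuclideanSpace ℝ (Fin d)),
      (z.2 : EuclideanSpace ℝ (Fin d))⟫_ℝ| ^ p)
    (μ : Measure (sphere (0 : EuclideanSpace ℝ (Fin d)) 1)) [IsProbabilityMeasure μ]
    (hmin : ∀ ν : Measure (sphere (0 : EuclideanSpace ℝ (Fin d)) 1), IsProbabilityMeasure ν →
      ∫ z, K z ∂(μ.prod μ) ≤ ∫ z, K z ∂(ν.prod ν)) :
    ∃ ν : Measure (sphere (0 : EuclideanSpace ℝ (Fin d)) 1), IsProbabilityMeasure ν ∧
      ν.support.Finite ∧ ν.support ⊆ μ.support ∧
      ∫ z, K z ∂(ν.prod ν) = ∫ z, K z ∂(μ.prod μ) := by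
  classical
  have hKc : Continuous K := by
    rw [hK]
    apply Continuous.rpow_const
    · fun_prop
    · intro _; right; exact hp.le
  have hK0 : ∀ z, 0 ≤ K z := fun z => by
    rw [hK]
    exact Real.rpow_nonneg (abs_nonneg _) _
  have hKs : ∀ x y, K (x, y) = K (y, x) := by
    intro x y
    simp only [hK]
    rw [real_inner_comm]
  have hpsd := psd_subtype (K := K) (S := μ.support) (fun s hs c =>
    Pool.Agent.Lib.MP_3f9d7d_an.psd_of_minimizer hKc hK0 hmin hs c)
  by_cases hirr : Irrational p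
  · -- finite support
    refine ⟨μ, inferInstance, ?_, subset_rfl, rfl⟩
    set Y : Set (EuclideanSpace ℝ (Fin d)) := Subtype.val '' μ.support with hY
    suffices hfin : Y.Finite from Set.Finite.of_finite_image hfin (Subtype.val_injective.injOn)
    apply Pool.Agent.Lib.MP_3f9d7d_an.finite_of_psd hp
    · intro n j hn _ h
      apply hirr
      refine ⟨(j : ℚ) / n, ?_⟩
      have hn0 : (n : ℝ) ≠ 0 := by
        have : n ≠ 0 := by omega
        exact_mod_cast this
      push_cast
      rw [div_eq_iff hn0, h]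
      ring
    · rintro _ ⟨x, -, rfl⟩
      exact mem_sphere_zero_iff_norm.mp x.2
    · intro s c
      have hmem : ∀ x : Y, ∃ y : sphere (0 : EuclideanSpace ℝ (Fin d)) 1, y ∈ μ.support ∧
          (y : EuclideanSpace ℝ (Fin d)) = x := by
        rintro ⟨_, x, hx, rfl⟩
        exact ⟨x, hx, rfl⟩
      choose f hf1 hf2 using hmem
      have hfinj : Function.Injective fun a : Y => (⟨f a, hf1 a⟩ : μ.support) := by
        intro a b hab
        have hab' : f a = f b := congrArg Subtype.val hab
        apply Subtype.ext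
        rw [← hf2 a, ← hf2 b, hab']
      have h1 := hpsd (s.map ⟨_, hfinj⟩) (Function.extend (fun a : Y =>
        (⟨f a, hf1 a⟩ : μ.support)) c 0)
      simp only [Finset.sum_map, Function.Embedding.coeFn_mk, hfinj.extend_apply] at h1
      refine le_of_le_of_eq h1 ?_
      apply Finset.sum_congr rfl
      intro a _
      apply Finset.sum_congr rfl
      intro b _
      rw [hK]
      simp only [hf2]
  · obtain ⟨q, hq⟩ := not_not.mp hirr
    have hqpos : 0 < q := by
      have : (0 : ℝ) < q := by rw [hq]; exact hp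
      exact_mod_cast this
    obtain ⟨n, hn⟩ : ∃ n : ℕ, q.den = n + 1 := ⟨q.den - 1, by have := q.den_pos; omega⟩
    set m : ℕ := q.num.toNat with hm
    have hmnum : (m : ℤ) = q.num := Int.toNat_of_nonneg (Rat.num_pos.mpr hqpos).le
    have hpm : p * ((n + 1 : ℕ) : ℝ) = m := by
      rw [← hn, ← hq]
      have h1 : q * q.den = q.num := Rat.mul_den_eq_num q
      have h2 : (q : ℝ) * (q.den : ℝ) = (q.num : ℝ) := by exact_mod_cast h1
      rw [h2, ← hmnum]
      simp
    obtain ⟨t, htfin, htcov⟩ := (isCompact_sphere (0 : EuclideanSpace ℝ (Fin d)) 1).totallyBounded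
      |> Metric.totallyBounded_iff.mp |> (· (1 / 2) (by norm_num))
    have hfint : Fintype t := htfin.fintype
    obtain ⟨N, v, Q, hQ⟩ := finite_rank_cover
      (k := fun x y : μ.support => K ((x : sphere (0 : EuclideanSpace ℝ (Fin d)) 1),
        (y : sphere (0 : EuclideanSpace ℝ (Fin d)) 1)))
      (fun x y => hKs _ _) hpsd (J := t)
      (fun a => {x | dist ((x : sphere (0 : EuclideanSpace ℝ (Fin d)) 1) :
        EuclideanSpace ℝ (Fin d)) a < 1 / 2})
      (by
        intro x
        obtain ⟨c, hc, hxc⟩ := Set.mem_iUnion₂.mp (htcov (x : sphere (0 : EuclideanSpace ℝ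
          (Fin d)) 1).2)
        exact ⟨⟨c, hc⟩, hxc⟩)
      (n := n) (T := fun x l => ∏ j, ((x : sphere (0 : EuclideanSpace ℝ (Fin d)) 1) :
        EuclideanSpace ℝ (Fin d)) ((Fintype.equivFin (Fin m → Fin d)).symm l j))
      (by
        intro a x hx y hy
        have hx1 : ‖((x : sphere (0 : EuclideanSpace ℝ (Fin d)) 1) :
          EuclideanSpace ℝ (Fin d))‖ = 1 := mem_sphere_zero_iff_norm.mp x.1.2
        have hy1 : ‖((y : sphere (0 : EuclideanSpace ℝ (Fin d)) 1) :
          EuclideanSpace ℝ (Fin d))‖ = 1 := mem_sphere_zero_iff_norm.mp y.1.2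
        set x' : EuclideanSpace ℝ (Fin d) := ((x : sphere (0 : EuclideanSpace ℝ (Fin d)) 1) :
          EuclideanSpace ℝ (Fin d)) with hx'
        set y' : EuclideanSpace ℝ (Fin d) := ((y : sphere (0 : EuclideanSpace ℝ (Fin d)) 1) :
          EuclideanSpace ℝ (Fin d)) with hy'
        have hpos : 0 < ⟪x', y'⟫_ℝ := by
          have h1 : dist x' y' < 1 := by
            have h2 : dist x' a < 1 / 2 := hx
            have h3 : dist y' a < 1 / 2 := hy
            have h4 := dist_triangle_right x' y' a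
            linarith
          rw [dist_eq_norm] at h1
          have h2 := norm_sub_sq_real x' y'
          rw [hx1, hy1] at h2
          nlinarith [norm_nonneg (x' - y')]
        rw [hK]
        simp only
        rw [← inner_pow_eq, abs_of_pos hpos, ← Real.rpow_natCast, ← Real.rpow_mul hpos.le, hpm,
          Real.rpow_natCast])
    exact exists_finite hKc hKs hmin (N := N) (v := fun i => (v i : sphere _ _)) (Q := Q)
      (fun x hx y hy => hQ ⟨x, hx⟩ ⟨y, hy⟩)

end Pool.Agent.Lib.MP_3f9d7d_an.H30
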